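import Mathlib

/-!
# Non-adaptive prophet inequalities on truncated partition matroids: definitions
-/

namespace Pool.Agent.Lib.MP_2f1792_lc

open MeasureTheory
open scoped NNReal ENNReal

/-- A prophet inequality instance on a truncated partition matroid. The elements are
`0, …, n - 1` in their order of arrival, `part e` is the part of the element `e`, `cap i` is the
capacity of the part `i`, `k` is the global bound and `law e` is the distribution of the value of
the element `e`; the values are independent. -/
structure Inst where
  /-- number of elements -/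
  n : ℕ
  /-- number of parts -/
  m : ℕ
  /-- part of an element -/
  part : Fin n → Fin m
  /-- capacity of a part -/
  cap : Fin m → ℕ
  cap_pos : ∀ i, 1 ≤ cap i
  /-- global bound -/
  k : ℕ
  k_pos : 1 ≤ k
  /-- distribution of the value of an element -/
  law : Fin n → Measure ℝ≥0
  prob : ∀ e, IsProbabilityMeasure (law e)

/-- independent sets of the truncated partition matroid -/
def Inst.Indep (I : Inst) (S : Finset (Fin I.n)) : Prop :=
  (∀ i, (S.filter fun e => I.part e = i).card ≤ I.cap i) ∧ S.card ≤ I.k

instance (I : Inst) : DecidablePred I.Indep := fun _ => inferInstanceAs (Decidable (_ ∧ _))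

/-- the prophet's value: the largest total value of an independent set -/
noncomputable def Inst.opt (I : Inst) (x : Fin I.n → ℝ≥0) : ℝ≥0 :=
  (Finset.univ.filter I.Indep).sup fun S => ∑ e ∈ S, x e

/-- the set accepted with thresholds `T` on values `x`: the elements arrive in order and `e` is
accepted exactly when `T e ≤ x e` and accepting it keeps the accepted set independent -/
noncomputable def Inst.acc (I : Inst) (T : Fin I.n → ℝ≥0∞) (x : Fin I.n → ℝ≥0) :
    Finset (Fin I.n) :=
  (List.finRange I.n).foldl
    (fun S e => if T e ≤ (x e : ℝ≥0∞) ∧ I.Indep (insert e S) then insert e S else S) ∅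

/-- expected value of the prophet -/
noncomputable def Inst.optE (I : Inst) : ℝ≥0∞ := ∫⁻ x, (I.opt x : ℝ≥0∞) ∂(Measure.pi I.law)

/-- expected value of the algorithm whose vector of thresholds has distribution `ν` -/
noncomputable def Inst.algE (I : Inst) (ν : Measure (Fin I.n → ℝ≥0∞)) : ℝ≥0∞ :=
  ∫⁻ T, ∫⁻ x, ((∑ e ∈ I.acc T x, x e : ℝ≥0) : ℝ≥0∞) ∂(Measure.pi I.law) ∂ν

/-- a non-adaptive algorithm chooses, as a function of the instance, a probability distribution
for the vector of thresholds -/
structure Alg where
  /-- distribution of the vector of thresholds -/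
  dist : ∀ I : Inst, Measure (Fin I.n → ℝ≥0∞)
  prob : ∀ I, IsProbabilityMeasure (dist I)

/-- the best competitive ratio `sup E[OPT] / E[ALG]` of a non-adaptive algorithm on a class of
instances -/
noncomputable def rho (C : Set Inst) : ℝ≥0∞ :=
  ⨅ A : Alg, ⨆ I ∈ C, I.optE / I.algE (A.dist I)

/-- all instances on truncated partition matroids -/
def TP : Set Inst := Set.univ

/-- the instances on truncated partition matroids all of whose capacities are one -/
def R1 : Set Inst := {I | ∀ i, I.cap i = 1}

/-- the instances all of whose values have finite expectation -/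
def FM : Set Inst := {I | ∀ e, ∫⁻ y, (y : ℝ≥0∞) ∂(I.law e) ≠ ⊤}

end Pool.Agent.Lib.MP_2f1792_lc
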