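import Mathlib

/-!
# Expectations over independent activations
-/

set_option linter.unusedSectionVars false

namespace Pool.Agent.Lib.MP_2f1792_lc

variable {ι : Type} [DecidableEq ι]

/-- one more active element in part `j` -/
def inc (c : ι → ℕ) (j : ι) : ι → ℕ := Function.update c j (c j + 1)

theorem inc_same (c : ι → ℕ) (j : ι) : inc c j j = c j + 1 := by simp [inc]

theorem inc_ne (c : ι → ℕ) {j i : ι} (h : i ≠ j) : inc c j i = c i := by simp [inc, h]

theorem le_inc (c : ι → ℕ) (j : ι) : c ≤ inc c j := by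
  intro i
  by_cases h : i = j
  · subst h; rw [inc_same]; exact Nat.le_succ _
  · rw [inc_ne c h]

theorem inc_mono {c c' : ι → ℕ} (h : c ≤ c') (j : ι) : inc c j ≤ inc c' j := by
  intro i
  by_cases hi : i = j
  · subst hi; rw [inc_same, inc_same]; exact Nat.succ_le_succ (h i)
  · rw [inc_ne c hi, inc_ne c' hi]; exact h i

theorem inc_comm (c : ι → ℕ) (i j : ι) : inc (inc c i) j = inc (inc c j) i := by
  funext a
  by_cases h1 : a = i
  · subst h1
    by_cases h2 : a = j
    · subst h2; rfl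
    · rw [inc_ne _ h2, inc_same, inc_same, inc_ne _ h2]
  · by_cases h2 : a = j
    · subst h2
      rw [inc_same, inc_ne _ h1, inc_ne _ h1, inc_same]
    · rw [inc_ne _ h2, inc_ne _ h1, inc_ne _ h1, inc_ne _ h2]

/-- expectation of `φ` of the vector of active counts, starting from `c`; the list holds the
activation probability and the part of each element -/
noncomputable def Ex : List (ℝ × ι) → ((ι → ℕ) → ℝ) → (ι → ℕ) → ℝ
  | [], φ, c => φ c
  | a :: l, φ, c => (1 - a.1) * Ex l φ c + a.1 * Ex l φ (inc c a.2)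

/-- the activation probabilities are probabilities -/
def PV (l : List (ℝ × ι)) : Prop := ∀ a ∈ l, 0 ≤ a.1 ∧ a.1 ≤ 1

theorem PV.tail {a : ℝ × ι} {l : List (ℝ × ι)} (h : PV (a :: l)) : PV l :=
  fun b hb => h b (List.mem_cons_of_mem _ hb)

theorem PV.head {a : ℝ × ι} {l : List (ℝ × ι)} (h : PV (a :: l)) : 0 ≤ a.1 ∧ a.1 ≤ 1 :=
  h a List.mem_cons_self

theorem PV.left {l l' : List (ℝ × ι)} (h : PV (l ++ l')) : PV l :=
  fun b hb => h b (List.mem_append_left _ hb)

theorem PV.right {l l' : List (ℝ × ι)} (h : PV (l ++ l')) : PV l' :=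
  fun b hb => h b (List.mem_append_right _ hb)

theorem PV.snoc {l : List (ℝ × ι)} (h : PV l) {q : ℝ} (h0 : 0 ≤ q) (h1 : q ≤ 1) (j : ι) :
    PV (l ++ [(q, j)]) := by
  intro b hb
  rcases List.mem_append.1 hb with hb | hb
  · exact h b hb
  · rw [List.mem_singleton] at hb
    subst hb
    exact ⟨h0, h1⟩

theorem Ex_append (l l' : List (ℝ × ι)) (φ : (ι → ℕ) → ℝ) (c : ι → ℕ) :
    Ex (l ++ l') φ c = Ex l (Ex l' φ) c := by
  induction l generalizing c with
  | nil => rfl
  | cons a l ih => simp only [List.cons_append, Ex, ih]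

theorem Ex_snoc (l : List (ℝ × ι)) (q : ℝ) (j : ι) (φ : (ι → ℕ) → ℝ) (c : ι → ℕ) :
    Ex (l ++ [(q, j)]) φ c = Ex l (fun c => (1 - q) * φ c + q * φ (inc c j)) c := by
  rw [Ex_append]
  rfl

theorem Ex_add (l : List (ℝ × ι)) (φ ψ : (ι → ℕ) → ℝ) (c : ι → ℕ) :
    Ex l (fun c => φ c + ψ c) c = Ex l φ c + Ex l ψ c := by
  induction l generalizing c with
  | nil => rfl
  | cons a l ih => simp only [Ex, ih]; ring

theorem Ex_smul (l : List (ℝ × ι)) (a : ℝ) (φ : (ι → ℕ) → ℝ) (c : ι → ℕ) :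
    Ex l (fun c => a * φ c) c = a * Ex l φ c := by
  induction l generalizing c with
  | nil => rfl
  | cons b l ih => simp only [Ex, ih]; ring

theorem Ex_sub (l : List (ℝ × ι)) (φ ψ : (ι → ℕ) → ℝ) (c : ι → ℕ) :
    Ex l (fun c => φ c - ψ c) c = Ex l φ c - Ex l ψ c := by
  induction l generalizing c with
  | nil => rfl
  | cons a l ih => simp only [Ex, ih]; ring

theorem Ex_const (l : List (ℝ × ι)) (a : ℝ) (c : ι → ℕ) : Ex l (fun _ => a) c = a := by
  induction l generalizing c with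
  | nil => rfl
  | cons b l ih => simp only [Ex, ih]; ring

theorem Ex_mono {l : List (ℝ × ι)} (hl : PV l) {φ ψ : (ι → ℕ) → ℝ} (h : ∀ c, φ c ≤ ψ c)
    (c : ι → ℕ) : Ex l φ c ≤ Ex l ψ c := by
  induction l generalizing c with
  | nil => exact h c
  | cons a l ih =>
    obtain ⟨h0, h1⟩ := hl.head
    have e1 := mul_le_mul_of_nonneg_left (ih hl.tail c) (sub_nonneg.2 h1)
    have e2 := mul_le_mul_of_nonneg_left (ih hl.tail (inc c a.2)) h0
    simp only [Ex]
    linarith

theorem Ex_nonneg {l : List (ℝ × ι)} (hl : PV l) {φ : (ι → ℕ) → ℝ} (h : ∀ c, 0 ≤ φ c)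
    (c : ι → ℕ) : 0 ≤ Ex l φ c := by
  have := Ex_mono hl h c
  rwa [Ex_const] at this

theorem Ex_inc (l : List (ℝ × ι)) (φ : (ι → ℕ) → ℝ) (c : ι → ℕ) (j : ι) :
    Ex l φ (inc c j) = Ex l (fun c => φ (inc c j)) c := by
  induction l generalizing c with
  | nil => rfl
  | cons a l ih => simp only [Ex, ih, inc_comm c j a.2]

theorem Ex_monotone {l : List (ℝ × ι)} (hl : PV l) {φ : (ι → ℕ) → ℝ} (h : Monotone φ) :
    Monotone (Ex l φ) := by
  induction l with
  | nil => exact h
  | cons a l ih =>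
    intro c c' hc
    obtain ⟨h0, h1⟩ := hl.head
    have e1 := mul_le_mul_of_nonneg_left (ih hl.tail hc) (sub_nonneg.2 h1)
    have e2 := mul_le_mul_of_nonneg_left (ih hl.tail (inc_mono hc a.2)) h0
    simp only [Ex]
    linarith

theorem Ex_antitone {l : List (ℝ × ι)} (hl : PV l) {φ : (ι → ℕ) → ℝ} (h : Antitone φ) :
    Antitone (Ex l φ) := by
  induction l with
  | nil => exact h
  | cons a l ih =>
    intro c c' hc
    obtain ⟨h0, h1⟩ := hl.head
    have e1 := mul_le_mul_of_nonneg_left (ih hl.tail hc) (sub_nonneg.2 h1)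
    have e2 := mul_le_mul_of_nonneg_left (ih hl.tail (inc_mono hc a.2)) h0
    simp only [Ex]
    linarith

/-- the Harris inequality -/
theorem Ex_harris {l : List (ℝ × ι)} (hl : PV l) {f g : (ι → ℕ) → ℝ} (hf : Monotone f)
    (hg : Antitone g) (c : ι → ℕ) : Ex l (fun c => f c * g c) c ≤ Ex l f c * Ex l g c := by
  induction l generalizing c with
  | nil => exact le_rfl
  | cons a l ih =>
    obtain ⟨h0, h1⟩ := hl.head
    have e1 := mul_le_mul_of_nonneg_left (ih hl.tail c) (sub_nonneg.2 h1)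
    have e2 := mul_le_mul_of_nonneg_left (ih hl.tail (inc c a.2)) h0
    have e3 := Ex_monotone hl.tail hf (le_inc c a.2)
    have e4 := Ex_antitone hl.tail hg (le_inc c a.2)
    simp only [Ex]
    have e5 : 0 ≤ (a.1 * (1 - a.1)) * ((Ex l f (inc c a.2) - Ex l f c) *
        (Ex l g c - Ex l g (inc c a.2))) :=
      mul_nonneg (mul_nonneg h0 (sub_nonneg.2 h1)) (mul_nonneg (sub_nonneg.2 e3) (sub_nonneg.2 e4))
    nlinarith

/-- rank-like functions of the vector of active counts -/
structure Rk (M : (ι → ℕ) → ℕ) : Prop where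
  mono : Monotone M
  unit : ∀ c j, M (inc c j) ≤ M c + 1
  sub : ∀ c c' j, c ≤ c' → M (inc c j) = M c → M (inc c' j) = M c'

theorem Rk.anti {M : (ι → ℕ) → ℕ} (h : Rk M) (j : ι) :
    Antitone (fun c => ((M (inc c j) : ℝ) - M c)) := by
  intro c c' hc
  have h1 := h.mono (le_inc c j)
  have h2 := h.mono (le_inc c' j)
  have h3 := h.unit c j
  have h4 := h.unit c' j
  have h5 := h.sub c c' j hc
  show (M (inc c' j) : ℝ) - M c' ≤ (M (inc c j) : ℝ) - M c
  have h6 : (M (inc c' j) : ℤ) - M c' ≤ (M (inc c j) : ℤ) - M c := by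
    by_cases h7 : M (inc c j) = M c
    · rw [h7, h5 h7]; simp
    · omega
  exact_mod_cast h6

theorem Rk.min {M : (ι → ℕ) → ℕ} (h : Rk M) (m : ℕ) : Rk (fun c => min m (M c)) where
  mono := fun c c' hc => min_le_min le_rfl (h.mono hc)
  unit := fun c j => by
    have := h.unit c j
    show Min.min m (M (inc c j)) ≤ Min.min m (M c) + 1
    omega
  sub := fun c c' j hc h1 => by
    have h2 := h.mono hc
    have h3 := h.mono (le_inc c j)
    have h4 := h.mono (le_inc c' j)
    have h5 := h.sub c c' j hc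
    have h1' : Min.min m (M (inc c j)) = Min.min m (M c) := h1
    show Min.min m (M (inc c' j)) = Min.min m (M c')
    by_cases h6 : M (inc c j) = M c
    · rw [h5 h6]
    · omega

/-- indicator of `m ≤ M` -/
noncomputable def ge (M : (ι → ℕ) → ℕ) (m : ℕ) (c : ι → ℕ) : ℝ := if m ≤ M c then 1 else 0

theorem ge_nonneg (M : (ι → ℕ) → ℕ) (m : ℕ) (c : ι → ℕ) : 0 ≤ ge M m c := by
  unfold ge; split_ifs <;> norm_num

theorem ge_le_one (M : (ι → ℕ) → ℕ) (m : ℕ) (c : ι → ℕ) : ge M m c ≤ 1 := by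
  unfold ge; split_ifs <;> norm_num

theorem ge_mono {M : (ι → ℕ) → ℕ} (h : Monotone M) (m : ℕ) : Monotone (ge M m) := by
  intro c c' hc
  unfold ge
  by_cases h1 : m ≤ M c
  · rw [if_pos h1, if_pos (h1.trans (h hc))]
  · rw [if_neg h1]; split_ifs <;> norm_num

/-- size bias, general form -/
theorem size_bias_aux {M : (ι → ℕ) → ℕ} (h : Rk M) (m : ℕ) (l l' : List (ℝ × ι))
    (hl : PV (l ++ l')) :
    Ex (l ++ l') (fun c => M c * ge M (m + 1) c) 0 - Ex l (fun c => M c * Ex l' (ge M (m + 1)) c) 0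
      ≤ Ex (l ++ l') (ge M m) 0 *
        (Ex (l ++ l') (fun c => (M c : ℝ)) 0 - Ex l (fun c => (M c : ℝ)) 0) := by
  induction l' generalizing l with
  | nil => simp [Ex]
  | cons a l' ih =>
    obtain ⟨q, j⟩ := a
    have hassoc : l ++ (q, j) :: l' = (l ++ [(q, j)]) ++ l' := by simp
    have h1 := ih (l ++ [(q, j)]) (by rw [← hassoc]; exact hl)
    rw [← hassoc] at h1
    have hl1 : PV l := hl.left
    have hl2 : PV ((q, j) :: l') := hl.right
    obtain ⟨hq0, hq1⟩ := hl2.head
    set F := Ex (l ++ (q, j) :: l') (ge M m) 0 with hF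
    have key : Ex (l ++ [(q, j)]) (fun c => M c * Ex l' (ge M (m + 1)) c) 0 -
        Ex l (fun c => M c * Ex ((q, j) :: l') (ge M (m + 1)) c) 0 ≤
        F * (Ex (l ++ [(q, j)]) (fun c => (M c : ℝ)) 0 - Ex l (fun c => (M c : ℝ)) 0) := by
      rw [Ex_snoc, Ex_snoc, ← Ex_sub, ← Ex_sub]
      have e1 : (fun c => ((1 - q) * (M c * Ex l' (ge M (m + 1)) c) +
          q * (M (inc c j) * Ex l' (ge M (m + 1)) (inc c j))) -
          M c * Ex ((q, j) :: l') (ge M (m + 1)) c) =
          fun c => q * (((M (inc c j) : ℝ) - M c) * Ex l' (ge M (m + 1)) (inc c j)) := by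
        funext c
        simp only [Ex]
        ring
      have e2 : (fun c => ((1 - q) * (M c : ℝ) + q * (M (inc c j) : ℝ)) - M c) =
          fun c => q * ((M (inc c j) : ℝ) - M c) := by
        funext c
        ring
      rw [e1, e2, Ex_smul, Ex_smul]
      have e3 : Ex l (fun c => ((M (inc c j) : ℝ) - M c) * Ex l' (ge M (m + 1)) (inc c j)) 0 ≤
          Ex l (fun c => Ex ((q, j) :: l') (ge M m) c * ((M (inc c j) : ℝ) - M c)) 0 := by
        refine Ex_mono hl1 (fun c => ?_) 0
        have hd : (0 : ℝ) ≤ (M (inc c j) : ℝ) - M c :=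
          sub_nonneg.2 (by exact_mod_cast h.mono (le_inc c j))
        rw [mul_comm]
        refine mul_le_mul_of_nonneg_right ?_ hd
        have f1 : Ex l' (ge M (m + 1)) (inc c j) ≤ Ex l' (ge M m) c := by
          rw [Ex_inc]
          refine Ex_mono hl2.tail (fun c => ?_) c
          unfold ge
          by_cases h3 : m + 1 ≤ M (inc c j)
          · rw [if_pos h3, if_pos]
            have := h.unit c j
            omega
          · rw [if_neg h3]; split_ifs <;> norm_num
        have f2 : Ex l' (ge M m) c ≤ Ex l' (ge M m) (inc c j) :=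
          Ex_monotone hl2.tail (ge_mono h.mono m) (le_inc c j)
        simp only [Ex]
        nlinarith
      have e4 := Ex_harris hl1 (Ex_monotone hl2 (ge_mono h.mono m)) (h.anti j) 0
      have e5 : Ex l (Ex ((q, j) :: l') (ge M m)) 0 = F := by rw [hF, Ex_append]
      rw [e5] at e4
      have e6 := mul_le_mul_of_nonneg_left (e3.trans e4) hq0
      linarith
    linarith

/-- size bias: `(m+1) P(M ≥ m+1) ≤ E[min(m+1, M)] P(M ≥ m)` -/
theorem size_bias {M : (ι → ℕ) → ℕ} (h : Rk M) (h0 : M 0 = 0) (m : ℕ) {l : List (ℝ × ι)}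
    (hl : PV l) :
    (m + 1) * Ex l (ge M (m + 1)) 0 ≤
      Ex l (fun c => ((min (m + 1) (M c) : ℕ) : ℝ)) 0 * Ex l (ge M m) 0 := by
  have h1 := size_bias_aux (h.min (m + 1)) m [] l (by simpa using hl)
  simp only [List.nil_append, Ex] at h1
  have e1 : (fun c => ((min (m + 1) (M c) : ℕ) : ℝ) * ge (fun c => min (m + 1) (M c)) (m + 1) c) =
      fun c => ((m : ℝ) + 1) * ge M (m + 1) c := by
    funext c
    unfold ge
    by_cases h2 : m + 1 ≤ M c
    · rw [if_pos (le_min le_rfl h2), if_pos h2, min_eq_left h2]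
      push_cast
      ring
    · rw [if_neg (fun h3 => h2 (h3.trans (min_le_right _ _))), if_neg h2]
      ring
  have e2 : ge (fun c => min (m + 1) (M c)) m = ge M m := by
    funext c
    unfold ge
    by_cases h2 : m ≤ M c
    · rw [if_pos (le_min (Nat.le_succ m) h2), if_pos h2]
    · rw [if_neg (fun h3 => h2 (h3.trans (min_le_right _ _))), if_neg h2]
  rw [e1, e2, Ex_smul] at h1
  have e3 : ((min (m + 1) (M 0) : ℕ) : ℝ) = 0 := by rw [h0]; simp
  rw [e3] at h1
  simp only [zero_mul, sub_zero] at h1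
  rw [mul_comm (Ex l (fun c => ((min (m + 1) (M c) : ℕ) : ℝ)) 0)]
  exact h1

end Pool.Agent.Lib.MP_2f1792_lc
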