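import Mathlib

/-!
# The numerical contradiction
-/

set_option linter.unusedSectionVars false

namespace Pool.Agent.Lib.MP_2f1792_lc

theorem chain_big {e d b a B α C η : ℝ} (hα : 0 < α) (hα1 : α ≤ 4597 / 10000) (hC : 5 ≤ C)
    (hη : η = 1 - 2 * α) (hB : B = α * C - η) (hB0 : 0 < B) (ha : a ≤ 1)
    (h1 : η * (C + 1) < e * (α * C)) (h2 : C * e ≤ B * d) (h3 : (C - 1) * d ≤ B * b)
    (h4 : (C - 2) * b ≤ B * a) : False := by
  have k1 : (C - 2) * b ≤ B := h4.trans (by nlinarith)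
  have k2 : (C - 2) * ((C - 1) * d) ≤ B ^ 2 := by
    calc (C - 2) * ((C - 1) * d) ≤ (C - 2) * (B * b) :=
          mul_le_mul_of_nonneg_left h3 (by linarith)
      _ = B * ((C - 2) * b) := by ring
      _ ≤ B * B := mul_le_mul_of_nonneg_left k1 hB0.le
      _ = B ^ 2 := by ring
  have k3 : (C - 2) * (C - 1) * (C * e) ≤ B ^ 3 := by
    calc (C - 2) * (C - 1) * (C * e) ≤ (C - 2) * (C - 1) * (B * d) :=
          mul_le_mul_of_nonneg_left h2 (mul_nonneg (by linarith) (by linarith))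
      _ = B * ((C - 2) * ((C - 1) * d)) := by ring
      _ ≤ B * B ^ 2 := mul_le_mul_of_nonneg_left k2 hB0.le
      _ = B ^ 3 := by ring
  have k4 : (C - 2) * (C - 1) * (η * (C + 1)) < α * B ^ 3 := by
    have hpos : 0 < (C - 2) * (C - 1) := mul_pos (by linarith) (by linarith)
    calc (C - 2) * (C - 1) * (η * (C + 1)) < (C - 2) * (C - 1) * (e * (α * C)) :=
          mul_lt_mul_of_pos_left h1 hpos
      _ = α * ((C - 2) * (C - 1) * (C * e)) := by ring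
      _ ≤ α * B ^ 3 := mul_le_mul_of_nonneg_left k3 hα.le
  have hη1 : 806 / 10000 ≤ η := by rw [hη]; linarith
  have hB1 : B ≤ 4597 / 10000 * C - 806 / 10000 := by rw [hB, hη]; nlinarith
  have k5 : α * B ^ 3 ≤ 4597 / 10000 * (4597 / 10000 * C - 806 / 10000) ^ 3 :=
    mul_le_mul hα1 (pow_le_pow_left₀ hB0.le hB1 3) (pow_nonneg hB0.le 3) (by norm_num)
  have k6 : (C - 2) * (C - 1) * (806 / 10000 * (C + 1)) ≤ (C - 2) * (C - 1) * (η * (C + 1)) :=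
    mul_le_mul_of_nonneg_left (mul_le_mul_of_nonneg_right hη1 (by linarith))
      (mul_nonneg (by linarith) (by linarith))
  obtain ⟨t, rfl⟩ : ∃ t, C = 5 + t := ⟨C - 5, by ring⟩
  have ht : 0 ≤ t := by linarith
  have k7 : 4597 / 10000 * (4597 / 10000 * (5 + t) - 806 / 10000) ^ 3 ≤
      (5 + t - 2) * (5 + t - 1) * (806 / 10000 * (5 + t + 1)) := by
    nlinarith [pow_nonneg ht 2, pow_nonneg ht 3]
  linarith

theorem case1 {f1 f2 α R : ℝ} (hα1 : α ≤ 4597 / 10000) (hR : 2 ≤ R) (p1 : 0 ≤ f1)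
    (p2 : 0 ≤ f2) (s1 : 2 * f2 ≤ (f1 + f2) * f1) (h2 : f1 < α - R * (1 - 2 * α))
    (h3 : 1 - 2 * α < f2) : False := by
  have e1 : 2 * (1 - 2 * α) ≤ R * (1 - 2 * α) := mul_le_mul_of_nonneg_right hR (by linarith)
  have a1 : f1 ≤ 2985 / 10000 := by linarith
  have a2 : (f1 + f2) * f1 ≤ (f1 + f2) * (2985 / 10000) :=
    mul_le_mul_of_nonneg_left a1 (by linarith)
  linarith

theorem case2 {f1 f2 f3 α : ℝ} (hα1 : α ≤ 4597 / 10000) (p1 : 0 ≤ f1)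
    (p2 : 0 ≤ f2) (p3 : 0 ≤ f3) (s1 : 2 * f2 ≤ (f1 + f2) * f1)
    (s2 : 3 * f3 ≤ (f1 + f2 + f3) * f2) (h2 : f1 + f2 < 4 * α - 1)
    (h3 : 1 - 2 * α < f3) : False := by
  have a1 : f1 + f2 ≤ 8388 / 10000 := by linarith
  have a3 : f2 ≤ 1 / 4 := by
    by_contra h
    push Not at h
    have e1 : (f1 + f2) * f1 ≤ 8388 / 10000 * f1 := mul_le_mul_of_nonneg_right a1 p1
    linarith
  have a4 : (f1 + f2 + f3) * f2 ≤ (f1 + f2 + f3) * (1 / 4) :=
    mul_le_mul_of_nonneg_left a3 (by linarith)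
  linarith

theorem case3 {f1 f2 f3 f4 α : ℝ} (hα1 : α ≤ 4597 / 10000) (p2 : 0 ≤ f2)
    (p3 : 0 ≤ f3) (u3 : f3 ≤ 1) (d2 : f2 ≤ f1)
    (s2 : 3 * f3 ≤ (f1 + f2 + f3) * f2) (s3 : 4 * f4 ≤ (f1 + f2 + f3 + f4) * f3)
    (h2 : f1 + f2 + f3 < 5 * α - 1) (h3 : 1 - 2 * α < f4) : False := by
  have e1 : (1 - 2 * α) * (4 - f3) < f4 * (4 - f3) := mul_lt_mul_of_pos_right h3 (by linarith)
  have e2 : (f1 + f2 + f3) * f3 ≤ (5 * α - 1) * f3 := mul_le_mul_of_nonneg_right h2.le p3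
  have a2 : 4 * (1 - 2 * α) < f3 * (3 * α) := by nlinarith
  have e3 : f3 * (3 * α) ≤ f3 * (3 * (4597 / 10000)) :=
    mul_le_mul_of_nonneg_left (by linarith) p3
  have a3 : 2337 / 10000 < f3 := by linarith
  have e4 : (f1 + f2 + f3) * f2 ≤ (5 * (4597 / 10000) - 1) * f2 :=
    mul_le_mul_of_nonneg_right (by linarith) p2
  have a4 : 539 / 1000 < f2 := by linarith
  linarith

theorem case4 {f1 f2 f3 f4 f5 α : ℝ} (hα1 : α ≤ 4597 / 10000) (p2 : 0 ≤ f2)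
    (p3 : 0 ≤ f3) (p4 : 0 ≤ f4) (u4 : f4 ≤ 1) (d2 : f2 ≤ f1)
    (s2 : 3 * f3 ≤ (f1 + f2 + f3) * f2) (s3 : 4 * f4 ≤ (f1 + f2 + f3 + f4) * f3)
    (s4 : 5 * f5 ≤ (f1 + f2 + f3 + f4 + f5) * f4)
    (h2 : f1 + f2 + f3 + f4 < 6 * α - 1) (h3 : 1 - 2 * α < f5) : False := by
  have e1 : (1 - 2 * α) * (5 - f4) < f5 * (5 - f4) := mul_lt_mul_of_pos_right h3 (by linarith)
  have e2 : (f1 + f2 + f3 + f4) * f4 ≤ (6 * α - 1) * f4 := mul_le_mul_of_nonneg_right h2.le p4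
  have a2 : 5 * (1 - 2 * α) < f4 * (4 * α) := by nlinarith
  have e3 : f4 * (4 * α) ≤ f4 * (4 * (4597 / 10000)) :=
    mul_le_mul_of_nonneg_left (by linarith) p4
  have a3 : 219 / 1000 < f4 := by linarith
  have e4 : (f1 + f2 + f3 + f4) * f3 ≤ (6 * (4597 / 10000) - 1) * f3 :=
    mul_le_mul_of_nonneg_right (by linarith) p3
  have a4 : 498 / 1000 < f3 := by linarith
  have e5 : (f1 + f2 + f3) * f2 ≤ (6 * (4597 / 10000) - 1 - 219 / 1000) * f2 :=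
    mul_le_mul_of_nonneg_right (by linarith) p2
  have a5 : 9 / 10 < f2 := by linarith
  linarith

theorem chain_num (F G : ℕ → ℝ) (hG0 : G 0 = 0) (hG : ∀ m, G (m + 1) = G m + F (m + 1))
    (hF0 : ∀ m, 0 ≤ F m) (hF1 : ∀ m, F m ≤ 1) (hF : ∀ m, F (m + 1) ≤ F m)
    (hSB : ∀ m : ℕ, ((m : ℝ) + 1) * F (m + 1) ≤ G (m + 1) * F m) {α : ℝ} (hα : 0 < α)
    (hα1 : α ≤ 4597 / 10000) {c r : ℕ} (hc : 1 ≤ c) (hr : 1 ≤ r) (hcr : 2 ≤ c ∨ 2 ≤ r)
    (h2 : G c < α * c - r * (1 - 2 * α)) (h3 : 1 - 2 * α < F (c + 1)) : False := by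
  have hr' : (1 : ℝ) ≤ r := by exact_mod_cast hr
  have hη : (0 : ℝ) < 1 - 2 * α := by linarith
  have h2' : G c < α * c - (1 - 2 * α) := by
    have := mul_le_mul_of_nonneg_right hr' hη.le
    linarith
  have G1 : G 1 = F 1 := by rw [hG 0, hG0]; ring
  have G2 : G 2 = F 1 + F 2 := by rw [hG 1, G1]
  have G3 : G 3 = F 1 + F 2 + F 3 := by rw [hG 2, G2]
  have G4 : G 4 = F 1 + F 2 + F 3 + F 4 := by rw [hG 3, G3]
  have G5 : G 5 = F 1 + F 2 + F 3 + F 4 + F 5 := by rw [hG 4, G4]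
  have s1 := hSB 1
  have s2 := hSB 2
  have s3 := hSB 3
  have s4 := hSB 4
  norm_num at s1 s2 s3 s4
  rw [G2] at s1
  rw [G3] at s2
  rw [G4] at s3
  rw [G5] at s4
  have hcases : c = 1 ∨ c = 2 ∨ c = 3 ∨ c = 4 ∨ 5 ≤ c := by omega
  rcases hcases with rfl | rfl | rfl | rfl | hc5
  · have hr2 : (2 : ℝ) ≤ r := by
      have : 2 ≤ r := by omega
      exact_mod_cast this
    rw [G1] at h2
    norm_num at h2 h3
    exact case1 hα1 hr2 (hF0 1) (hF0 2) s1 h2 h3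
  · rw [G2] at h2'
    norm_num at h2' h3
    exact case2 hα1 (hF0 1) (hF0 2) (hF0 3) s1 s2 (by linarith) h3
  · rw [G3] at h2'
    norm_num at h2' h3
    exact case3 hα1 (hF0 2) (hF0 3) (hF1 3) (hF 1) s2 s3 (by linarith) h3
  · rw [G4] at h2'
    norm_num at h2' h3
    exact case4 hα1 (hF0 2) (hF0 3) (hF0 4) (hF1 4) (hF 1) s2 s3 s4 (by linarith) h3
  · clear s1 s2 s3 s4 G1 G2 G3 G4 G5
    obtain ⟨n, rfl⟩ : ∃ n, c = n + 5 := ⟨c - 5, by omega⟩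
    have t1 := hSB (n + 5)
    have t2 := hSB (n + 4)
    have t3 := hSB (n + 3)
    have t4 := hSB (n + 2)
    have g6 := hG (n + 5)
    have g5 := hG (n + 4)
    have g4 := hG (n + 3)
    simp only [show n + 5 + 1 = n + 6 from rfl, show n + 4 + 1 = n + 5 from rfl,
      show n + 3 + 1 = n + 4 from rfl, show n + 2 + 1 = n + 3 from rfl] at t1 t2 t3 t4 g6 g5 g4 h3
    push_cast at t1 t2 t3 t4 h2'
    have q2 := hF0 (n + 2)
    have q3 := hF0 (n + 3)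
    have q4 := hF0 (n + 4)
    have q5 := hF0 (n + 5)
    have q6 := hF0 (n + 6)
    have w5 := hF1 (n + 5)
    set C : ℝ := (n : ℝ) + 5 with hC
    have hC5 : 5 ≤ C := by
      have : (0 : ℝ) ≤ n := Nat.cast_nonneg n
      linarith
    have hGn : ∀ m, 0 ≤ G m := by
      intro m
      induction m with
      | zero => rw [hG0]
      | succ m ih => rw [hG m]; linarith [hF0 (m + 1)]
    have hB0 : 0 < α * C - (1 - 2 * α) := lt_of_le_of_lt (hGn _) h2'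
    refine chain_big (e := F (n + 5)) (d := F (n + 4)) (b := F (n + 3)) (a := F (n + 2))
      (B := α * C - (1 - 2 * α)) hα hα1 hC5 rfl rfl hB0 (hF1 _) ?_ ?_ ?_ ?_
    · -- from the last step
      rw [g6] at t1
      have e1 : (1 - 2 * α) * (C + 1 - F (n + 5)) < F (n + 6) * (C + 1 - F (n + 5)) :=
        mul_lt_mul_of_pos_right h3 (by linarith)
      have e2 : G (n + 5) * F (n + 5) ≤ (α * C - (1 - 2 * α)) * F (n + 5) :=
        mul_le_mul_of_nonneg_right h2'.le q5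
      nlinarith
    · have e1 : (n : ℝ) + 4 + 1 = C := by rw [hC]; ring
      rw [e1] at t2
      exact t2.trans (mul_le_mul_of_nonneg_right h2'.le q4)
    · have e1 : (n : ℝ) + 3 + 1 = C - 1 := by rw [hC]; ring
      rw [e1] at t3
      refine t3.trans (mul_le_mul_of_nonneg_right ?_ q3)
      linarith
    · have e1 : (n : ℝ) + 2 + 1 = C - 2 := by rw [hC]; ring
      rw [e1] at t4
      refine t4.trans (mul_le_mul_of_nonneg_right ?_ q2)
      linarith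

end Pool.Agent.Lib.MP_2f1792_lc
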