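import Pool.Agent.Lib.MP_2f1792_lc.Ex
import Pool.Agent.Lib.MP_2f1792_lc.Num

/-!
# The probability that an element is free
-/

set_option linter.unusedSectionVars false

namespace Pool.Agent.Lib.MP_2f1792_lc

open Finset

variable {ι : Type} [Fintype ι] [DecidableEq ι]

/-- rank of the active elements in the parts in `s` -/
def rk (r : ι → ℕ) (s : Finset ι) (c : ι → ℕ) : ℕ := ∑ j ∈ s, min (r j) (c j)

theorem rk_inc (r : ι → ℕ) (s : Finset ι) (c : ι → ℕ) (j : ι) :
    rk r s (inc c j) = rk r s c + if j ∈ s ∧ c j < r j then 1 else 0 := by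
  unfold rk
  by_cases hj : j ∈ s
  · rw [← Finset.add_sum_erase _ _ hj, ← Finset.add_sum_erase s (fun j => min (r j) (c j)) hj]
    have h1 : ∑ x ∈ s.erase j, min (r x) (inc c j x) = ∑ x ∈ s.erase j, min (r x) (c x) := by
      refine Finset.sum_congr rfl fun x hx => ?_
      rw [inc_ne c (Finset.ne_of_mem_erase hx)]
    rw [h1, inc_same]
    by_cases h2 : c j < r j
    · rw [if_pos ⟨hj, h2⟩]
      omega
    · rw [if_neg (fun h => h2 h.2)]
      omega
  · rw [if_neg (fun h => hj h.1)]
    refine Finset.sum_congr rfl fun x hx => ?_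
    rw [inc_ne c]
    rintro rfl
    exact hj hx

theorem rk_rk (r : ι → ℕ) (s : Finset ι) : Rk (rk r s) where
  mono := fun c c' h => Finset.sum_le_sum fun j _ => min_le_min le_rfl (h j)
  unit := fun c j => by rw [rk_inc]; split_ifs <;> omega
  sub := fun c c' j h h1 => by
    rw [rk_inc] at h1 ⊢
    by_cases h2 : j ∈ s ∧ c' j < r j
    · have h3 : c j ≤ c' j := h j
      have h4 : c j < r j := lt_of_le_of_lt h3 h2.2
      rw [if_pos ⟨h2.1, h4⟩] at h1
      omega
    · rw [if_neg h2]; rfl

theorem rk_zero (r : ι → ℕ) (s : Finset ι) : rk r s 0 = 0 := by simp [rk]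

theorem rk_split (r : ι → ℕ) (i : ι) (c : ι → ℕ) :
    rk r univ c = min (r i) (c i) + rk r (univ.erase i) c := by
  unfold rk
  rw [← Finset.add_sum_erase _ _ (Finset.mem_univ i)]

/-- an element of part `i` can still be accepted -/
def Free (r : ι → ℕ) (k : ℕ) (i : ι) (c : ι → ℕ) : Prop := c i < r i ∧ rk r univ c < k

instance (r : ι → ℕ) (k : ℕ) (i : ι) (c : ι → ℕ) : Decidable (Free r k i c) :=
  inferInstanceAs (Decidable (_ ∧ _))

/-- indicator of `Free` -/
noncomputable def fr (r : ι → ℕ) (k : ℕ) (i : ι) (c : ι → ℕ) : ℝ :=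
  if Free r k i c then 1 else 0

theorem fr_nonneg (r : ι → ℕ) (k : ℕ) (i : ι) (c : ι → ℕ) : 0 ≤ fr r k i c := by
  unfold fr; split_ifs <;> norm_num

theorem fr_le_one (r : ι → ℕ) (k : ℕ) (i : ι) (c : ι → ℕ) : fr r k i c ≤ 1 := by
  unfold fr; split_ifs <;> norm_num

/-- `P(S ≤ 1) ≥ P(S = 0) (1 - log P(S = 0))` -/
theorem low_prob (r : ι → ℕ) (hr : ∀ j, 1 ≤ r j) (s : Finset ι) (l : List (ℝ × ι)) (hl : PV l) :
    (1 - Ex l (ge (rk r s) 1) 0) * (1 - Real.log (1 - Ex l (ge (rk r s) 1) 0)) ≤
      1 - Ex l (ge (rk r s) 2) 0 := by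
  induction l using List.reverseRecOn with
  | nil => simp [Ex, ge, rk_zero]
  | append_singleton l a ih =>
    obtain ⟨q, j⟩ := a
    have hl1 := hl.left
    have ih := ih hl1
    obtain ⟨hq0, hq1⟩ := hl (q, j) (by simp)
    simp only at hq0 hq1
    set A := Ex l (ge (rk r s) 1) 0 with hA
    set B := Ex l (ge (rk r s) 2) 0 with hB
    have hA1 : A ≤ 1 := by
      have := Ex_mono hl1 (ge_le_one (rk r s) 1) 0
      rwa [Ex_const] at this
    have hA0 : 0 ≤ A := Ex_nonneg hl1 (ge_nonneg _ _) 0
    by_cases hj : j ∈ s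
    · have e1 : Ex (l ++ [(q, j)]) (ge (rk r s) 1) 0 = (1 - q) * A + q := by
        rw [Ex_snoc, Ex_add, Ex_smul, Ex_smul, ← hA]
        have : (fun c => ge (rk r s) 1 (inc c j)) = fun _ => (1 : ℝ) := by
          funext c
          unfold ge
          rw [if_pos]
          rw [rk_inc]
          by_cases h1 : c j < r j
          · rw [if_pos ⟨hj, h1⟩]; omega
          · have h2 : min (r j) (c j) ≤ rk r s c :=
              Finset.single_le_sum (f := fun j => min (r j) (c j)) (fun _ _ => Nat.zero_le _) hj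
            have := hr j
            omega
        rw [this, Ex_const]
        ring
      have e2 : Ex (l ++ [(q, j)]) (ge (rk r s) 2) 0 ≤ (1 - q) * B + q * A := by
        rw [Ex_snoc, Ex_add, Ex_smul, Ex_smul, ← hB]
        have h1 : Ex l (fun c => ge (rk r s) 2 (inc c j)) 0 ≤ A := by
          refine Ex_mono hl1 (fun c => ?_) 0
          unfold ge
          by_cases h2 : 2 ≤ rk r s (inc c j)
          · rw [if_pos h2, if_pos]
            have := (rk_rk r s).unit c j
            omega
          · rw [if_neg h2]; split_ifs <;> norm_num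
        have := mul_le_mul_of_nonneg_left h1 hq0
        linarith
      rw [e1]
      have e3 : 1 - ((1 - q) * A + q) = (1 - q) * (1 - A) := by ring
      rw [e3]
      have e4 : (1 - q) * ((1 - A) * (1 - Real.log (1 - A))) + q * (1 - A) ≤
          1 - Ex (l ++ [(q, j)]) (ge (rk r s) 2) 0 := by
        have := mul_le_mul_of_nonneg_left ih (sub_nonneg.2 hq1)
        nlinarith
      refine le_trans ?_ e4
      rcases eq_or_lt_of_le hq1 with hq | hq
      · rw [hq]
        simp only [sub_self, zero_mul, zero_add, one_mul]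
        linarith
      rcases eq_or_lt_of_le hA1 with hA2 | hA2
      · rw [hA2]; simp
      have h5 : 0 < 1 - q := by linarith
      have h6 : 0 < 1 - A := by linarith
      rw [Real.log_mul h5.ne' h6.ne']
      have h7 : -Real.log (1 - q) ≤ (1 - q)⁻¹ - 1 := by
        rw [← Real.log_inv]
        exact Real.log_le_sub_one_of_pos (inv_pos.2 h5)
      have h8 : (1 - q) * (-Real.log (1 - q)) ≤ q := by
        have := mul_le_mul_of_nonneg_left h7 h5.le
        rw [mul_sub, mul_inv_cancel₀ h5.ne'] at this
        linarith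
      have h9 := mul_le_mul_of_nonneg_right h8 h6.le
      nlinarith
    · have h1 : ∀ c, rk r s (inc c j) = rk r s c := fun c => by
        rw [rk_inc, if_neg (fun h => hj h.1)]; rfl
      have e1 : ∀ m, Ex (l ++ [(q, j)]) (ge (rk r s) m) 0 = Ex l (ge (rk r s) m) 0 := by
        intro m
        rw [Ex_snoc]
        congr 1
        funext c
        simp only [ge, h1]
        ring
      rw [e1, e1]
      exact ih

/-- the main estimate -/
theorem free_ge (r : ι → ℕ) (hr : ∀ j, 1 ≤ r j) {k : ℕ} (hk : 1 ≤ k) {α : ℝ} (hα : 0 < α)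
    (hα1 : α ≤ 4597 / 10000)
    (hα2 : ∀ y, 2 - 3 * α ≤ y → y ≤ 1 → 2 * α ≤ y * (1 - Real.log y))
    {l : List (ℝ × ι)} (hl : PV l) (i : ι)
    (hZ : Ex l (fun c => ((min k (rk r univ c) : ℕ) : ℝ)) 0 ≤ α * k)
    (hY : Ex l (fun c => if rk r (univ.erase i) c + r i ≤ k then
      ((min (r i) (c i) : ℕ) : ℝ) else 0) 0 ≤ α * r i) :
    α ≤ Ex l (fr r k i) 0 := by
  set P := Ex l (fr r k i) 0 with hP
  have hBl : Ex l (fun c => 1 - fr r k i c) 0 = 1 - P := by rw [Ex_sub, Ex_const]
  have hri : (1 : ℝ) ≤ r i := by exact_mod_cast hr i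
  have hk' : (1 : ℝ) ≤ k := by exact_mod_cast hk
  rcases Nat.lt_or_ge (r i) k with hrk | hrk
  swap
  · -- the part constraint is void
    have h1 : Ex l (fun c => (k : ℝ) * (1 - fr r k i c)) 0 ≤ α * k := by
      refine le_trans (Ex_mono hl (fun c => ?_) 0) hZ
      unfold fr
      split_ifs with h
      · simp
      · rw [sub_zero, mul_one]
        have h2 := rk_split r i c
        have h3 : k ≤ min k (rk r univ c) := by
          unfold Free at h
          omega
        exact_mod_cast h3
    rw [Ex_smul, hBl] at h1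
    nlinarith
  obtain ⟨c0, hc0⟩ : ∃ c0, k = c0 + r i := ⟨k - r i, by omega⟩
  have hc1 : 1 ≤ c0 := by omega
  have hkR : (k : ℝ) = c0 + r i := by rw [hc0]; push_cast; ring
  set S := rk r (univ.erase i) with hS
  set F : ℕ → ℝ := fun m => Ex l (ge S m) 0 with hF
  set G : ℕ → ℝ := fun m => Ex l (fun c => ((min m (S c) : ℕ) : ℝ)) 0 with hG
  have h1 : r i * (1 - P) ≤ α * k - G c0 := by
    have h2 : Ex l (fun c => (r i : ℝ) * (1 - fr r k i c)) 0 ≤
        Ex l (fun c => ((min k (rk r univ c) : ℕ) : ℝ) - ((min c0 (S c) : ℕ) : ℝ)) 0 := by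
      refine Ex_mono hl (fun c => ?_) 0
      have h2 := rk_split r i c
      rw [← hS] at h2
      unfold fr
      by_cases h : Free r k i c
      · rw [if_pos h]
        have h3 : min c0 (S c) ≤ min k (rk r univ c) := by omega
        have h4 : ((min c0 (S c) : ℕ) : ℝ) ≤ ((min k (rk r univ c) : ℕ) : ℝ) := by
          exact_mod_cast h3
        linarith
      · rw [if_neg h]
        have h3 : r i + min c0 (S c) ≤ min k (rk r univ c) := by
          unfold Free at h
          omega
        have h4 : ((r i + min c0 (S c) : ℕ) : ℝ) ≤ ((min k (rk r univ c) : ℕ) : ℝ) := by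
          exact_mod_cast h3
        rw [Nat.cast_add] at h4
        linarith
    rw [Ex_smul, hBl, Ex_sub] at h2
    linarith
  have h2 : r i * (1 - P) ≤ α * r i + r i * F (c0 + 1) := by
    have h2 : Ex l (fun c => (r i : ℝ) * (1 - fr r k i c)) 0 ≤
        Ex l (fun c => (if S c + r i ≤ k then ((min (r i) (c i) : ℕ) : ℝ) else 0) +
          r i * ge S (c0 + 1) c) 0 := by
      refine Ex_mono hl (fun c => ?_) 0
      have h2 := rk_split r i c
      rw [← hS] at h2
      unfold fr ge
      by_cases h5 : S c + r i ≤ k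
      · have h6 : ¬ (c0 + 1 ≤ S c) := by omega
        rw [if_pos h5, if_neg h6]
        split_ifs with h
        · simp
        · have h3 : r i ≤ min (r i) (c i) := by
            unfold Free at h
            omega
          have h4 : (r i : ℝ) ≤ ((min (r i) (c i) : ℕ) : ℝ) := by exact_mod_cast h3
          linarith
      · have h6 : c0 + 1 ≤ S c := by omega
        rw [if_neg h5, if_pos h6]
        split_ifs with h
        · simp
        · simp
    rw [Ex_smul, hBl, Ex_add, Ex_smul] at h2
    linarith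
  by_contra hcon
  push Not at hcon
  have h3 : G c0 < α * c0 - r i * (1 - 2 * α) := by nlinarith
  have h4 : 1 - 2 * α < F (c0 + 1) := by nlinarith
  by_cases hcr : 2 ≤ c0 ∨ 2 ≤ r i
  · refine chain_num F G ?_ ?_ ?_ ?_ ?_ ?_ hα hα1 hc1 (hr i) hcr h3 h4
    · simp only [hG]
      have : (fun c => ((min 0 (S c) : ℕ) : ℝ)) = fun _ => (0 : ℝ) := by
        funext c; simp
      rw [this, Ex_const]
    · intro m
      simp only [hG, hF]
      rw [← Ex_add]
      congr 1
      funext c
      unfold ge
      by_cases h5 : m + 1 ≤ S c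
      · rw [if_pos h5, min_eq_left h5, min_eq_left (by omega)]
        push_cast
        ring
      · rw [if_neg h5, min_eq_right (by omega), min_eq_right (by omega)]
        ring
    · intro m
      exact Ex_nonneg hl (ge_nonneg _ _) 0
    · intro m
      have := Ex_mono hl (ge_le_one S m) 0
      rwa [Ex_const] at this
    · intro m
      refine Ex_mono hl (fun c => ?_) 0
      unfold ge
      by_cases h5 : m + 1 ≤ S c
      · rw [if_pos h5, if_pos (by omega)]
      · rw [if_neg h5]; split_ifs <;> norm_num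
    · intro m
      exact size_bias (rk_rk r _) (rk_zero r _) m hl
  · have hc : c0 = 1 := by omega
    have hri1 : r i = 1 := by have := hr i; omega
    have h5 := low_prob r hr (univ.erase i) l hl
    rw [← hS] at h5
    have h6 : G 1 = F 1 := by
      simp only [hG, hF]
      congr 1
      funext c
      unfold ge
      by_cases h5 : 1 ≤ S c
      · rw [if_pos h5, min_eq_left h5]; simp
      · rw [if_neg h5, min_eq_right (by omega)]
        have : S c = 0 := by omega
        rw [this]; simp
    rw [hc] at h3 h4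
    rw [h6, hri1] at h3
    norm_num at h3 h4
    have h7 : F 1 = Ex l (ge S 1) 0 := rfl
    have h8 : F 2 = Ex l (ge S 2) 0 := rfl
    rw [← h7, ← h8] at h5
    have h9 : 0 ≤ F 1 := Ex_nonneg hl (ge_nonneg _ _) 0
    have h10 := hα2 (1 - F 1) (by linarith) (by linarith)
    linarith

end Pool.Agent.Lib.MP_2f1792_lc
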