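import Pool.Agent.Lib.MP_2f1792_lc.Rew

/-!
# The value of fixed thresholds on the hard instance
-/

set_option linter.unusedSectionVars false

namespace Pool.Agent.Lib.MP_2f1792_lc

open Finset

variable {ι : Type} [Fintype ι] [DecidableEq ι]

/-- value from the empty state when `b` small elements have the positive threshold -/
noncomputable def FF (w p : ℝ) (b : ℕ) : ℝ :=
  2 * w + (1 - 2 * w) * (1 - p) ^ b + b * (p / (1 - p)) * (1 - w) * (1 - p) ^ b

theorem FF_zero (w p : ℝ) : FF w p 0 = 1 := by simp [FF]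

theorem FF_succ (w : ℝ) {p : ℝ} (hp : p < 1) (b : ℕ) :
    FF w p (b + 1) = w * p + (1 - p) * FF w p b + p * (w + (1 - w) * (1 - p) ^ b) := by
  have h : (1 - p) ≠ 0 := by linarith
  unfold FF
  push_cast
  rw [pow_succ]
  field_simp
  ring

theorem FF_le {l w p : ℝ} (hl0 : 0 < l) (hl1 : l ≤ 1) (hw : w = l / (1 + l)) (hp0 : 0 < p)
    (hp1 : p < 1) (b : ℕ) :
    FF w p b ≤ 2 * w + (1 - w) * Real.exp (-l) + p / (1 - p) := by
  have h1 : 0 < 1 + l := by linarith
  have h2 : 0 < 1 - p := by linarith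
  have e1 : 1 - w = 1 / (1 + l) := by rw [hw]; field_simp; ring
  have e2 : 1 - 2 * w = (1 - w) * (1 - l) := by rw [e1, hw]; field_simp; ring
  have hw1 : 0 < 1 - w := by rw [e1]; positivity
  have hw0 : 0 < w := by rw [hw]; positivity
  set s : ℝ := b * p with hs
  have hs0 : 0 ≤ s := by positivity
  have e3 : (b : ℝ) * (p / (1 - p)) = s + s * (p / (1 - p)) := by
    rw [hs]; field_simp; ring
  have e4 : (1 - p) ^ b ≤ Real.exp (-s) := by
    have h3 : 1 - p ≤ Real.exp (-p) := by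
      have := Real.add_one_le_exp (-p)
      linarith
    have h4 : (1 - p) ^ b ≤ Real.exp (-p) ^ b := pow_le_pow_left₀ h2.le h3 b
    rw [← Real.exp_nat_mul] at h4
    have : (b : ℝ) * -p = -s := by rw [hs]; ring
    rwa [this] at h4
  have hr0 : 0 ≤ (1 - p) ^ b := pow_nonneg h2.le b
  have hd : 0 < p / (1 - p) := div_pos hp0 h2
  have e5 : FF w p b = 2 * w + (1 - w) * ((1 - p) ^ b * ((1 - l) + (s + s * (p / (1 - p))))) := by
    unfold FF
    rw [e3, e2]
    ring
  have h5 : 0 ≤ (1 - l) + (s + s * (p / (1 - p))) := by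
    have : 0 ≤ s * (p / (1 - p)) := mul_nonneg hs0 hd.le
    linarith
  have h6 : (1 - p) ^ b * ((1 - l) + (s + s * (p / (1 - p)))) ≤
      Real.exp (-s) * ((1 - l) + (s + s * (p / (1 - p)))) := mul_le_mul_of_nonneg_right e4 h5
  have h7 : Real.exp (-s) * (1 + (s - l)) ≤ Real.exp (-l) := by
    have h8 : 1 + (s - l) ≤ Real.exp (s - l) := by
      have := Real.add_one_le_exp (s - l)
      linarith
    have h9 := mul_le_mul_of_nonneg_left h8 (Real.exp_pos (-s)).le
    rw [← Real.exp_add] at h9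
    have : -s + (s - l) = -l := by ring
    rwa [this] at h9
  have h8 : Real.exp (-s) * s ≤ 1 := by
    have h9 : s ≤ Real.exp s := by
      have := Real.add_one_le_exp s
      linarith
    have h10 := mul_le_mul_of_nonneg_left h9 (Real.exp_pos (-s)).le
    rw [← Real.exp_add, neg_add_cancel, Real.exp_zero] at h10
    exact h10
  have h9 : Real.exp (-s) * ((1 - l) + (s + s * (p / (1 - p)))) ≤
      Real.exp (-l) + p / (1 - p) := by
    have h10 := mul_le_mul_of_nonneg_right h8 hd.le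
    have : Real.exp (-s) * ((1 - l) + (s + s * (p / (1 - p)))) =
      Real.exp (-s) * (1 + (s - l)) + Real.exp (-s) * s * (p / (1 - p)) := by ring
    rw [this]
    linarith
  rw [e5]
  have h10 := mul_le_mul_of_nonneg_left (h6.trans h9) hw1.le
  have h11 : (1 - w) * (p / (1 - p)) ≤ p / (1 - p) :=
    mul_le_of_le_one_left hd.le (by linarith)
  linarith

theorem Rw_cons (r : ι → ℕ) (k : ℕ) (a : ℝ × ℝ × ι) (l : List (ℝ × ℝ × ι)) (c : ι → ℕ) :
    Rw r k (a :: l) c = a.2.1 * fr r k a.2.2 c +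
      ((1 - a.1) * Rw r k l c + a.1 * Rw r k l (inc c a.2.2)) := rfl

theorem hard_list (i0 : ι) {w p : ℝ} (hw0 : 0 ≤ w) (hw1 : w ≤ 1) (hp0 : 0 < p) (hp1 : p < 1)
    {qa va qz vz : ℝ} (ha : (qa = 1 ∧ va = 1) ∨ (qa = 0 ∧ va = 0)) (hz0 : 0 ≤ vz)
    (hz : vz ≤ 1) (L : List (ℝ × ℝ × ι))
    (hL : ∀ a ∈ L, (a.1 = 1 ∧ a.2.1 = w * p) ∨ (a.1 = p ∧ a.2.1 = w * p) ∨
      (a.1 = 0 ∧ a.2.1 = 0))
    (hn : (i0 :: L.map fun a => a.2.2).Nodup) :
    ∃ b : ℕ, ∀ c : ι → ℕ, (∀ j ∈ i0 :: L.map (fun a => a.2.2), c j = 0) →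
      (rk (fun _ => 1) univ c = 0 →
        Rw (fun _ => 1) 2 (L ++ [(qa, va, i0), (qz, vz, i0)]) c ≤ FF w p b + w * p) ∧
      (rk (fun _ => 1) univ c = 1 →
        Rw (fun _ => 1) 2 (L ++ [(qa, va, i0), (qz, vz, i0)]) c ≤ w + (1 - w) * (1 - p) ^ b) ∧
      (2 ≤ rk (fun _ => 1) univ c →
        Rw (fun _ => 1) 2 (L ++ [(qa, va, i0), (qz, vz, i0)]) c ≤ 0) := by
  have hwp : 0 ≤ w * p := mul_nonneg hw0 hp0.le
  have hwp1 : w * p ≤ w := mul_le_of_le_one_right hw0 hp1.le
  induction L with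
  | nil =>
    refine ⟨0, fun c hc => ?_⟩
    have hc0 : c i0 = 0 := hc i0 (by simp)
    have e1 : fr (fun _ : ι => 1) 2 i0 (inc c i0) = 0 := by
      unfold fr
      rw [if_neg]
      rintro ⟨h, _⟩
      rw [inc_same] at h
      have h' : c i0 + 1 < 1 := h
      omega
    have e2 : Rw (fun _ : ι => 1) 2 ([] ++ [(qa, va, i0), (qz, vz, i0)]) c =
        (va + (1 - qa) * vz) * fr (fun _ : ι => 1) 2 i0 c := by
      rw [List.nil_append, Rw_cons, Rw_cons, Rw_cons]
      simp only [e1]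
      unfold Rw
      ring
    have e3 : va + (1 - qa) * vz ≤ 1 := by
      rcases ha with ⟨h1, h2⟩ | ⟨h1, h2⟩
      · rw [h1, h2]; linarith
      · rw [h1, h2]; linarith
    have e4 : 0 ≤ va + (1 - qa) * vz := by
      rcases ha with ⟨h1, h2⟩ | ⟨h1, h2⟩
      · rw [h1, h2]; linarith
      · rw [h1, h2]; linarith
    have e5 : (va + (1 - qa) * vz) * fr (fun _ : ι => 1) 2 i0 c ≤ 1 :=
      mul_le_one₀ e3 (fr_nonneg _ _ _ _) (fr_le_one _ _ _ _)
    rw [e2, FF_zero, pow_zero]
    refine ⟨fun _ => by linarith, fun _ => by linarith, fun h => ?_⟩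
    have : fr (fun _ : ι => 1) 2 i0 c = 0 := by
      unfold fr
      rw [if_neg]
      rintro ⟨_, h2⟩
      omega
    rw [this, mul_zero]
  | cons a L ih =>
    have hn2 : (i0 :: L.map fun a => a.2.2).Nodup := by
      simp only [List.map_cons, List.nodup_cons, List.mem_cons, not_or] at hn ⊢
      exact ⟨hn.1.2, hn.2.2⟩
    obtain ⟨b, hb⟩ := ih (fun a ha => hL a (List.mem_cons_of_mem _ ha)) hn2
    set R := Rw (fun _ : ι => 1) 2 (L ++ [(qa, va, i0), (qz, vz, i0)]) with hR
    have hstep : ∀ c : ι → ℕ, (∀ j ∈ i0 :: (a :: L).map (fun a => a.2.2), c j = 0) →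
        (∀ j ∈ i0 :: L.map (fun a => a.2.2), c j = 0) ∧
        (∀ j ∈ i0 :: L.map (fun a => a.2.2), inc c a.2.2 j = 0) ∧
        rk (fun _ => 1) univ (inc c a.2.2) = rk (fun _ => 1) univ c + 1 ∧
        Rw (fun _ : ι => 1) 2 ((a :: L) ++ [(qa, va, i0), (qz, vz, i0)]) c =
          a.2.1 * (if rk (fun _ => 1) univ c < 2 then 1 else 0) +
            ((1 - a.1) * R c + a.1 * R (inc c a.2.2)) := by
      intro c hc
      have h1 : ∀ j ∈ i0 :: L.map (fun a => a.2.2), c j = 0 := by
        intro j hj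
        refine hc j ?_
        simp only [List.map_cons, List.mem_cons] at hj ⊢
        tauto
      have h2 : c a.2.2 = 0 := hc _ (by simp)
      refine ⟨h1, ?_, ?_, ?_⟩
      · intro j hj
        rw [inc_ne, h1 j hj]
        rintro rfl
        simp only [List.map_cons, List.nodup_cons, List.mem_cons, not_or] at hn hj
        rcases hj with hj | hj
        · exact hn.1.1 hj.symm
        · exact hn.2.1 hj
      · rw [rk_inc, if_pos]
        exact ⟨Finset.mem_univ _, by rw [h2]; exact Nat.zero_lt_one⟩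
      · rw [List.cons_append, Rw_cons]
        congr 2
        unfold fr
        by_cases h5 : rk (fun _ => 1) univ c < 2
        · rw [if_pos h5, if_pos]
          refine ⟨?_, h5⟩
          rw [h2]
          exact Nat.zero_lt_one
        · rw [if_neg h5, if_neg (fun h => h5 h.2)]
    have hr0 : 0 < 1 - p := by linarith
    have hrb : (1 - p) ^ b ≤ 1 := pow_le_one₀ hr0.le (by linarith)
    have hrb0 : 0 ≤ (1 - p) ^ b := pow_nonneg hr0.le b
    have hw2 : 0 ≤ 1 - w := by linarith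
    have hle1 : w + (1 - w) * (1 - p) ^ b ≤ 1 := by
      have := mul_le_mul_of_nonneg_left hrb hw2
      linarith
    rcases hL a (by simp) with ⟨ha1, ha2⟩ | ⟨ha1, ha2⟩ | ⟨ha1, ha2⟩
    · refine ⟨0, fun c hc => ?_⟩
      obtain ⟨h1, h2, h3, h4⟩ := hstep c hc
      rw [h4, ha1, ha2, FF_zero, pow_zero]
      obtain ⟨b0, b1, b2⟩ := hb _ h2
      rw [h3] at b0 b1 b2
      refine ⟨fun h => ?_, fun h => ?_, fun h => ?_⟩
      · rw [if_pos (by omega)]
        have := b1 (by omega)
        linarith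
      · rw [if_pos (by omega)]
        have := b2 (by omega)
        linarith
      · rw [if_neg (by omega)]
        have := b2 (by omega)
        linarith
    · refine ⟨b + 1, fun c hc => ?_⟩
      obtain ⟨h1, h2, h3, h4⟩ := hstep c hc
      rw [h4, ha1, ha2, FF_succ w hp1]
      obtain ⟨b0, b1, b2⟩ := hb _ h2
      obtain ⟨d0, d1, d2⟩ := hb _ h1
      rw [h3] at b0 b1 b2
      refine ⟨fun h => ?_, fun h => ?_, fun h => ?_⟩
      · rw [if_pos (by omega)]
        have g1 := mul_le_mul_of_nonneg_left (b1 (by omega)) hp0.le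
        have g2 := mul_le_mul_of_nonneg_left (d0 h) hr0.le
        have g3 : (1 - p) * (w * p) ≤ w * p := mul_le_of_le_one_left hwp (by linarith)
        linarith
      · rw [if_pos (by omega)]
        have g1 := mul_le_mul_of_nonneg_left (b2 (by omega)) hp0.le
        have g2 := mul_le_mul_of_nonneg_left (d1 h) hr0.le
        have g3 : w + (1 - w) * (1 - p) ^ (b + 1) =
          w * p + (1 - p) * (w + (1 - w) * (1 - p) ^ b) := by ring
        rw [g3]
        linarith
      · rw [if_neg (by omega)]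
        have g1 := mul_le_mul_of_nonneg_left (b2 (by omega)) hp0.le
        have g2 := mul_le_mul_of_nonneg_left (d2 h) hr0.le
        linarith
    · refine ⟨b, fun c hc => ?_⟩
      obtain ⟨h1, h2, h3, h4⟩ := hstep c hc
      rw [h4, ha1, ha2]
      obtain ⟨d0, d1, d2⟩ := hb _ h1
      refine ⟨fun h => ?_, fun h => ?_, fun h => ?_⟩
      · have := d0 h
        linarith
      · have := d1 h
        linarith
      · have := d2 h
        linarith

end Pool.Agent.Lib.MP_2f1792_lc
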