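import Pool.Agent.Lib.MP_2f1792_lc.Meas
import Pool.Agent.Lib.MP_2f1792_lc.HardList

/-!
# The hard instance
-/

set_option linter.unusedSectionVars false

namespace Pool.Agent.Lib.MP_2f1792_lc

open Finset MeasureTheory
open scoped NNReal ENNReal

/-- the value `w` with probability `p`, otherwise zero -/
noncomputable def two (p : ℝ) (w : ℝ≥0) : Measure ℝ≥0 :=
  ENNReal.ofReal (1 - p) • Measure.dirac 0 + ENNReal.ofReal p • Measure.dirac w

theorem lintegral_two (p : ℝ) (w : ℝ≥0) (f : ℝ≥0 → ℝ≥0∞) :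
    ∫⁻ y, f y ∂(two p w) = ENNReal.ofReal (1 - p) * f 0 + ENNReal.ofReal p * f w := by
  unfold two
  rw [lintegral_add_measure, lintegral_smul_measure, lintegral_smul_measure, lintegral_dirac,
    lintegral_dirac, smul_eq_mul, smul_eq_mul]

theorem two_apply (p : ℝ) (w : ℝ≥0) {A : Set ℝ≥0} (hA : MeasurableSet A) :
    two p w A = ENNReal.ofReal (1 - p) * A.indicator 1 0 + ENNReal.ofReal p * A.indicator 1 w := by
  rw [← lintegral_indicator_one hA, lintegral_two]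

theorem two_prob {p : ℝ} (w : ℝ≥0) (hp0 : 0 ≤ p) (hp1 : p ≤ 1) :
    IsProbabilityMeasure (two p w) := by
  refine ⟨?_⟩
  rw [two_apply _ _ MeasurableSet.univ]
  simp only [Set.indicator_univ, Pi.one_apply, mul_one]
  rw [← ENNReal.ofReal_add (by linarith) hp0, sub_add_cancel, ENNReal.ofReal_one]

theorem two_cases {p : ℝ} (w : ℝ≥0) (hp0 : 0 ≤ p) (hp1 : p ≤ 1) (t : ℝ≥0∞) :
    (qq (two p w) t = 1 ∧ vv (two p w) t = w * p) ∨
    (qq (two p w) t = p ∧ vv (two p w) t = w * p) ∨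
    (qq (two p w) t = 0 ∧ vv (two p w) t = 0) := by
  have h0 : vv (two p w) t = if t ≤ (w : ℝ≥0∞) then w * p else 0 := by
    unfold vv
    rw [← lintegral_indicator (meas_ge t), lintegral_two]
    have h1 : Set.indicator {y : ℝ≥0 | t ≤ (y : ℝ≥0∞)} (fun y => (y : ℝ≥0∞)) 0 = 0 := by
      by_cases h : (0 : ℝ≥0) ∈ {y : ℝ≥0 | t ≤ (y : ℝ≥0∞)}
      · rw [Set.indicator_of_mem h]; rfl
      · rw [Set.indicator_of_notMem h]
    rw [h1, mul_zero, zero_add]
    split_ifs with h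
    · rw [Set.indicator_of_mem (show w ∈ {y : ℝ≥0 | t ≤ (y : ℝ≥0∞)} from h), ENNReal.toReal_mul,
        ENNReal.toReal_ofReal hp0, ENNReal.coe_toReal, mul_comm]
    · rw [Set.indicator_of_notMem (show w ∉ {y : ℝ≥0 | t ≤ (y : ℝ≥0∞)} from h), mul_zero,
        ENNReal.toReal_zero]
  have h1 : qq (two p w) t = (if t = 0 then 1 - p else 0) + if t ≤ (w : ℝ≥0∞) then p else 0 := by
    unfold qq
    rw [two_apply _ _ (meas_ge t)]
    have h2 : Set.indicator {y : ℝ≥0 | t ≤ (y : ℝ≥0∞)} (1 : ℝ≥0 → ℝ≥0∞) 0 =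
        if t = 0 then 1 else 0 := by
      split_ifs with h
      · rw [Set.indicator_of_mem]
        · rfl
        · show t ≤ ((0 : ℝ≥0) : ℝ≥0∞)
          rw [h]
          exact bot_le
      · rw [Set.indicator_of_notMem]
        intro h3
        exact h (le_antisymm (by simpa using h3) bot_le)
    have h3 : Set.indicator {y : ℝ≥0 | t ≤ (y : ℝ≥0∞)} (1 : ℝ≥0 → ℝ≥0∞) w =
        if t ≤ (w : ℝ≥0∞) then 1 else 0 := by
      split_ifs with h
      · rw [Set.indicator_of_mem (show w ∈ {y : ℝ≥0 | t ≤ (y : ℝ≥0∞)} from h)]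
        rfl
      · rw [Set.indicator_of_notMem (show w ∉ {y : ℝ≥0 | t ≤ (y : ℝ≥0∞)} from h)]
    rw [h2, h3]
    split_ifs
    · rw [mul_one, mul_one, ← ENNReal.ofReal_add (by linarith) hp0,
        ENNReal.toReal_ofReal (by linarith)]
    · rw [mul_one, mul_zero, add_zero, ENNReal.toReal_ofReal (by linarith), add_zero]
    · rw [mul_one, mul_zero, zero_add, ENNReal.toReal_ofReal hp0, zero_add]
    · simp
  rw [h0, h1]
  by_cases h : t = 0
  · left
    subst h
    have h2 : (0 : ℝ≥0∞) ≤ (w : ℝ≥0∞) := bot_le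
    rw [if_pos rfl, if_pos h2, if_pos h2]
    exact ⟨by ring, rfl⟩
  · right
    rw [if_neg h]
    by_cases h2 : t ≤ (w : ℝ≥0∞)
    · left
      rw [if_pos h2, if_pos h2]
      exact ⟨by ring, rfl⟩
    · right
      rw [if_neg h2, if_neg h2]
      exact ⟨by ring, rfl⟩

/-- laws of the hard instance -/
noncomputable def hlaw (n : ℕ) (w : ℝ≥0) (p : ℝ) : Fin (n + 2) → Measure ℝ≥0 := fun e =>
  if (e : ℕ) < n then two p w else if (e : ℕ) = n then two 1 1 else two p (Real.toNNReal (1 / p))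

theorem hlaw_prob (n : ℕ) (w : ℝ≥0) {p : ℝ} (hp0 : 0 < p) (hp1 : p < 1) (e : Fin (n + 2)) :
    IsProbabilityMeasure (hlaw n w p e) := by
  unfold hlaw
  split_ifs
  · exact two_prob _ hp0.le hp1.le
  · exact two_prob _ zero_le_one le_rfl
  · exact two_prob _ hp0.le hp1.le

theorem hlaw_small (n : ℕ) (w : ℝ≥0) (p : ℝ) (i : Fin n) :
    hlaw n w p i.castSucc.castSucc = two p w := by
  unfold hlaw
  rw [if_pos]
  exact i.2

theorem hlaw_a (n : ℕ) (w : ℝ≥0) (p : ℝ) : hlaw n w p (Fin.last n).castSucc = two 1 1 := by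
  simp [hlaw]

theorem hlaw_z (n : ℕ) (w : ℝ≥0) (p : ℝ) :
    hlaw n w p (Fin.last (n + 1)) = two p (Real.toNNReal (1 / p)) := by
  simp [hlaw]

/-- the hard instance -/
noncomputable def hard (n : ℕ) (w : ℝ≥0) (p : ℝ) (hp0 : 0 < p) (hp1 : p < 1) : Inst where
  n := n + 2
  m := n + 1
  part := fun e => ⟨min e n, by omega⟩
  cap := fun _ => 1
  cap_pos := fun _ => le_rfl
  k := 2
  k_pos := by norm_num
  law := hlaw n w p
  prob := hlaw_prob n w hp0 hp1

theorem hard_R1 (n : ℕ) (w : ℝ≥0) (p : ℝ) (hp0 : 0 < p) (hp1 : p < 1) :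
    hard n w p hp0 hp1 ∈ R1 := fun _ => rfl

theorem hard_FM (n : ℕ) (w : ℝ≥0) (p : ℝ) (hp0 : 0 < p) (hp1 : p < 1) :
    hard n w p hp0 hp1 ∈ FM := by
  intro e
  have h : ∀ (q : ℝ) (u : ℝ≥0), ∫⁻ y, (y : ℝ≥0∞) ∂(two q u) ≠ ⊤ := by
    intro q u
    rw [lintegral_two]
    exact ENNReal.add_ne_top.2 ⟨ENNReal.mul_ne_top ENNReal.ofReal_ne_top ENNReal.coe_ne_top,
      ENNReal.mul_ne_top ENNReal.ofReal_ne_top ENNReal.coe_ne_top⟩
  show ∫⁻ y, (y : ℝ≥0∞) ∂(hlaw n w p e) ≠ ⊤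
  unfold hlaw
  split_ifs
  · exact h _ _
  · exact h _ _
  · exact h _ _

/-- fixed thresholds on the hard instance -/
theorem hard_alg (n : ℕ) {l : ℝ} (hl0 : 0 < l) (hl1 : l ≤ 1) (w : ℝ≥0) (hw : (w : ℝ) = l / (1 + l))
    (p : ℝ) (hp0 : 0 < p) (hp1 : p < 1) (T : Fin (hard n w p hp0 hp1).n → ℝ≥0∞) :
    ∫⁻ x, ((∑ e ∈ (hard n w p hp0 hp1).acc T x, x e : ℝ≥0) : ℝ≥0∞)
      ∂(Measure.pi (hard n w p hp0 hp1).law) ≤
      ENNReal.ofReal (2 * w + (1 - w) * Real.exp (-l) + p / (1 - p) + w * p) := by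
  rw [lintegral_acc _ (hard_FM n w p hp0 hp1) T]
  refine ENNReal.ofReal_le_ofReal ?_
  have hw0 : 0 ≤ (w : ℝ) := w.2
  have hw1 : (w : ℝ) ≤ 1 := by
    rw [hw, div_le_one (by linarith)]
    linarith
  set f : Fin (n + 2) → ℝ × ℝ × Fin (n + 1) := fun e =>
    (qq ((hard n w p hp0 hp1).law e) (T e), vv ((hard n w p hp0 hp1).law e) (T e),
      (hard n w p hp0 hp1).part e) with hf
  have e1 : List.ofFn f = (List.ofFn fun i : Fin n => f i.castSucc.castSucc) ++
      [f (Fin.last n).castSucc, f (Fin.last (n + 1))] := by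
    rw [List.ofFn_succ', List.ofFn_succ']
    simp
  have ha : ∃ qa va : ℝ, f (Fin.last n).castSucc = (qa, va, Fin.last n) ∧
      ((qa = 1 ∧ va = 1) ∨ (qa = 0 ∧ va = 0)) := by
    have hlaw : (hard n w p hp0 hp1).law (Fin.last n).castSucc = two 1 1 := hlaw_a n w p
    refine ⟨qq (two 1 1) (T (Fin.last n).castSucc), vv (two 1 1) (T (Fin.last n).castSucc),
      ?_, ?_⟩
    · rw [hf]
      simp only
      rw [hlaw]
      congr 2
      apply Fin.ext
      show min n n = n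
      simp
    · rcases two_cases (p := 1) 1 zero_le_one le_rfl (T (Fin.last n).castSucc) with h | h | h
      · left; simpa using h
      · left; simpa using h
      · right; simpa using h
  have hz : ∃ qz vz : ℝ, f (Fin.last (n + 1)) = (qz, vz, Fin.last n) ∧ 0 ≤ vz ∧ vz ≤ 1 := by
    have hlaw : (hard n w p hp0 hp1).law (Fin.last (n + 1)) =
        two p (Real.toNNReal (1 / p)) := hlaw_z n w p
    refine ⟨qq (two p (Real.toNNReal (1 / p))) (T (Fin.last (n + 1))),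
      vv (two p (Real.toNNReal (1 / p))) (T (Fin.last (n + 1))), ?_, ?_⟩
    · rw [hf]
      simp only
      rw [hlaw]
      congr 2
      apply Fin.ext
      show min (n + 1) n = n
      simp
    · refine ⟨vv_nonneg _ _, ?_⟩
      have h1 : ((Real.toNNReal (1 / p) : ℝ≥0) : ℝ) * p = 1 := by
        rw [Real.coe_toNNReal _ (by positivity)]
        field_simp
      rcases two_cases (Real.toNNReal (1 / p)) hp0.le hp1.le (T (Fin.last (n + 1))) with
        h | h | h
      · rw [h.2, h1]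
      · rw [h.2, h1]
      · rw [h.2]; exact zero_le_one
  obtain ⟨qa, va, ha1, ha2⟩ := ha
  obtain ⟨qz, vz, hz1, hz2, hz3⟩ := hz
  have hL : ∀ a ∈ (List.ofFn fun i : Fin n => f i.castSucc.castSucc),
      (a.1 = 1 ∧ a.2.1 = (w : ℝ) * p) ∨ (a.1 = p ∧ a.2.1 = (w : ℝ) * p) ∨
      (a.1 = 0 ∧ a.2.1 = 0) := by
    intro a ha
    obtain ⟨i, rfl⟩ := (List.mem_ofFn' _ _).1 ha
    have hlaw : (hard n w p hp0 hp1).law i.castSucc.castSucc = two p w := hlaw_small n w p i
    rw [hf]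
    simp only
    rw [hlaw]
    exact two_cases w hp0.le hp1.le _
  have hpart : ∀ i : Fin n, (f i.castSucc.castSucc).2.2 = i.castSucc := by
    intro i
    apply Fin.ext
    show min (i : ℕ) n = i
    have := i.2
    omega
  have hn : (Fin.last n :: (List.ofFn fun i : Fin n => f i.castSucc.castSucc).map
      fun a => a.2.2).Nodup := by
    rw [List.map_ofFn, List.nodup_cons]
    have h1 : ((fun a : ℝ × ℝ × Fin (n + 1) => a.2.2) ∘ fun i : Fin n => f i.castSucc.castSucc) =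
        fun i : Fin n => i.castSucc := by
      funext i
      exact hpart i
    rw [h1]
    constructor
    · intro h
      obtain ⟨i, hi⟩ := (List.mem_ofFn' _ _).1 h
      exact (Fin.castSucc_ne_last i) hi
    · rw [List.nodup_ofFn]
      exact Fin.castSucc_injective n
  obtain ⟨b, hb⟩ := hard_list (Fin.last n) hw0 hw1 hp0 hp1 (qz := qz) ha2 hz2 hz3
    (List.ofFn fun i : Fin n => f i.castSucc.castSucc) hL hn
  have h2 := (hb 0 (fun _ _ => rfl)).1 (rk_zero _ _)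
  have h3 := FF_le hl0 hl1 hw hp0 hp1 b
  have h4 : Rw (fun _ : Fin (n + 1) => 1) 2 (List.ofFn f) 0 ≤ FF w p b + w * p := by
    rw [e1, ha1, hz1]
    exact h2
  have h5 : Rw (hard n w p hp0 hp1).cap (hard n w p hp0 hp1).k (List.ofFn f) 0 =
    Rw (fun _ : Fin (n + 1) => 1) 2 (List.ofFn f) 0 := rfl
  calc _ = Rw (fun _ : Fin (n + 1) => 1) 2 (List.ofFn f) 0 := h5
    _ ≤ _ := by linarith

end Pool.Agent.Lib.MP_2f1792_lc
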