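import Pool.Agent.Lib.MP_2f1792_lc.Hard

/-!
# The prophet on the hard instance
-/

set_option linter.unusedSectionVars false

namespace Pool.Agent.Lib.MP_2f1792_lc

open Finset MeasureTheory
open scoped NNReal ENNReal

theorem le_opt (I : Inst) (x : Fin I.n → ℝ≥0) {S : Finset (Fin I.n)} (hS : I.Indep S) :
    ∑ e ∈ S, x e ≤ I.opt x :=
  Finset.le_sup (f := fun S => ∑ e ∈ S, x e) (Finset.mem_filter.2 ⟨Finset.mem_univ _, hS⟩)

section

variable (n : ℕ) (w : ℝ≥0) (p : ℝ) (hp0 : 0 < p) (hp1 : p < 1)

/-- the prophet on the hard instance -/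
noncomputable def hopt (x : Fin (n + 2) → ℝ≥0) : ℝ≥0 := (hard n w p hp0 hp1).opt x

theorem le_hopt (x : Fin (n + 2) → ℝ≥0) {S : Finset (Fin (n + 2))}
    (hS : (hard n w p hp0 hp1).Indep S) : ∑ e ∈ S, x e ≤ hopt n w p hp0 hp1 x :=
  le_opt (hard n w p hp0 hp1) x hS

theorem hard_single (e : Fin (n + 2)) :
    (hard n w p hp0 hp1).Indep ({e} : Finset (Fin (n + 2))) := by
  refine ⟨fun i => ?_, ?_⟩
  · refine (Finset.card_filter_le _ _).trans ?_
    exact le_of_eq (Finset.card_singleton _)
  · show ({e} : Finset (Fin (n + 2))).card ≤ 2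
    rw [Finset.card_singleton]
    norm_num

theorem hard_pair (e f : Fin (n + 2)) (h : min (e : ℕ) n ≠ min (f : ℕ) n) :
    (hard n w p hp0 hp1).Indep ({e, f} : Finset (Fin (n + 2))) := by
  refine ⟨fun i => ?_, ?_⟩
  · refine Finset.card_le_one.2 ?_
    intro a ha b hb
    have ha := Finset.mem_filter.1 ha
    have hb := Finset.mem_filter.1 hb
    have ha1 : a = e ∨ a = f := by
      rcases Finset.mem_insert.1 ha.1 with h | h
      · exact Or.inl h
      · exact Or.inr (Finset.mem_singleton.1 h)
    have hb1 : b = e ∨ b = f := by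
      rcases Finset.mem_insert.1 hb.1 with h | h
      · exact Or.inl h
      · exact Or.inr (Finset.mem_singleton.1 h)
    have h1 : min (a : ℕ) n = min (b : ℕ) n := by
      have := ha.2.trans hb.2.symm
      exact congrArg Fin.val this
    rcases ha1 with rfl | rfl <;> rcases hb1 with rfl | rfl
    · rfl
    · exact absurd h1 h
    · exact absurd h1.symm h
    · rfl
  · exact Finset.card_le_two

/-- the box on which the two last elements have value `1` and `0` -/
def boxC : Fin (n + 2) → Set ℝ≥0 := fun e =>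
  if (e : ℕ) < n then Set.univ else if (e : ℕ) = n then {1} else {0}

/-- the box on which no small element is active -/
def boxD : Fin (n + 2) → Set ℝ≥0 := fun e => if (e : ℕ) < n then {w}ᶜ else Set.univ

theorem boxC_meas (e : Fin (n + 2)) : MeasurableSet (boxC n e) := by
  unfold boxC
  split_ifs
  · exact MeasurableSet.univ
  · exact measurableSet_singleton _
  · exact measurableSet_singleton _

theorem boxD_meas (e : Fin (n + 2)) : MeasurableSet (boxD n w e) := by
  unfold boxD
  split_ifs
  · exact (measurableSet_singleton _).compl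
  · exact MeasurableSet.univ

theorem hard_opt (x : Fin (n + 2) → ℝ≥0) :
    x (Fin.last (n + 1)) + (Set.pi Set.univ (boxC n)).indicator 1 x +
      w * (Set.pi Set.univ (boxD n w))ᶜ.indicator 1 x ≤ hopt n w p hp0 hp1 x := by
  set a : Fin (n + 2) := (Fin.last n).castSucc with ha
  set z : Fin (n + 2) := Fin.last (n + 1) with hz
  have hav : (a : ℕ) = n := by simp [ha]
  have hzv : (z : ℕ) = n + 1 := by simp [hz]
  have hC : x ∈ Set.pi Set.univ (boxC n) → x a = 1 ∧ x z = 0 := by
    intro h
    have h1 := h a (Set.mem_univ _)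
    have h2 := h z (Set.mem_univ _)
    unfold boxC at h1 h2
    rw [hav, if_neg (lt_irrefl _), if_pos rfl] at h1
    rw [hzv, if_neg (by omega), if_neg (by omega)] at h2
    exact ⟨h1, h2⟩
  have hD : x ∈ (Set.pi Set.univ (boxD n w))ᶜ → ∃ e : Fin (n + 2), (e : ℕ) < n ∧ x e = w := by
    intro h
    rw [Set.mem_compl_iff, Set.mem_univ_pi] at h
    push Not at h
    obtain ⟨e, he⟩ := h
    unfold boxD at he
    by_cases h1 : (e : ℕ) < n
    · rw [if_pos h1] at he
      exact ⟨e, h1, by simpa using he⟩
    · rw [if_neg h1] at he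
      exact absurd (Set.mem_univ _) he
  by_cases h1 : x ∈ (Set.pi Set.univ (boxD n w))ᶜ
  · obtain ⟨e, he, hew⟩ := hD h1
    rw [Set.indicator_of_mem h1]
    by_cases h2 : x ∈ Set.pi Set.univ (boxC n)
    · obtain ⟨h3, h4⟩ := hC h2
      rw [Set.indicator_of_mem h2, h4]
      have h5 := le_hopt n w p hp0 hp1 x (S := ({e, a} : Finset (Fin (n + 2))))
        (hard_pair n w p hp0 hp1 e a (by omega))
      rw [Finset.sum_pair (by
        intro h6
        rw [h6] at he
        omega), hew, h3] at h5
      refine le_trans (le_of_eq ?_) h5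
      simp only [Pi.one_apply, mul_one, zero_add]
      rw [add_comm]
    · rw [Set.indicator_of_notMem h2]
      have h5 := le_hopt n w p hp0 hp1 x (S := ({e, z} : Finset (Fin (n + 2))))
        (hard_pair n w p hp0 hp1 e z (by omega))
      rw [Finset.sum_pair (by
        intro h6
        rw [h6] at he
        omega), hew] at h5
      refine le_trans (le_of_eq ?_) h5
      simp only [Pi.one_apply, mul_one, add_zero]
      rw [add_comm]
  · rw [Set.indicator_of_notMem h1]
    by_cases h2 : x ∈ Set.pi Set.univ (boxC n)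
    · obtain ⟨h3, h4⟩ := hC h2
      rw [Set.indicator_of_mem h2, h4]
      have h5 := le_hopt n w p hp0 hp1 x (S := ({a} : Finset (Fin (n + 2))))
        (hard_single n w p hp0 hp1 a)
      rw [Finset.sum_singleton, h3] at h5
      simpa using h5
    · rw [Set.indicator_of_notMem h2]
      have h5 := le_hopt n w p hp0 hp1 x (S := ({z} : Finset (Fin (n + 2))))
        (hard_single n w p hp0 hp1 z)
      rw [Finset.sum_singleton] at h5
      simpa using h5

theorem prod_split (g : Fin (n + 2) → ℝ≥0∞) :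
    ∏ e, g e = (∏ i : Fin n, g i.castSucc.castSucc) * g (Fin.last n).castSucc *
      g (Fin.last (n + 1)) := by
  rw [Fin.prod_univ_castSucc, Fin.prod_univ_castSucc]

include hp0 hp1 in
theorem measure_C :
    Measure.pi (hlaw n w p) (Set.pi Set.univ (boxC n)) = ENNReal.ofReal (1 - p) := by
  have := fun e => hlaw_prob n w hp0 hp1 e
  rw [Measure.pi_pi]
  refine (prod_split n fun e => hlaw n w p e (boxC n e)).trans ?_
  have h1 : ∀ i : Fin n, hlaw n w p i.castSucc.castSucc
      (boxC n i.castSucc.castSucc) = 1 := by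
    intro i
    have : boxC n i.castSucc.castSucc = Set.univ := by
      unfold boxC
      rw [if_pos]
      exact i.2
    rw [this]
    exact measure_univ
  have h2 : hlaw n w p (Fin.last n).castSucc (boxC n (Fin.last n).castSucc) = 1 := by
    have : boxC n (Fin.last n).castSucc = {1} := by
      unfold boxC
      simp
    rw [this, hlaw_a, two_apply _ _ (measurableSet_singleton _)]
    simp
  have h3 : hlaw n w p (Fin.last (n + 1)) (boxC n (Fin.last (n + 1))) =
      ENNReal.ofReal (1 - p) := by
    have : boxC n (Fin.last (n + 1)) = {0} := by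
      unfold boxC
      simp
    rw [this, hlaw_z, two_apply _ _ (measurableSet_singleton _)]
    have h4 : Real.toNNReal (1 / p) ∉ ({0} : Set ℝ≥0) := by
      rw [Set.mem_singleton_iff]
      exact (Real.toNNReal_pos.2 (by positivity)).ne'
    rw [Set.indicator_of_notMem h4, Set.indicator_of_mem (Set.mem_singleton _)]
    simp
  simp only [h1, h2, h3, Finset.prod_const_one, one_mul]

include hp0 hp1 in
theorem measure_D (hw : w ≠ 0) :
    Measure.pi (hlaw n w p) (Set.pi Set.univ (boxD n w)) =
      ENNReal.ofReal ((1 - p) ^ n) := by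
  have := fun e => hlaw_prob n w hp0 hp1 e
  rw [Measure.pi_pi]
  refine (prod_split n fun e => hlaw n w p e (boxD n w e)).trans ?_
  have h1 : ∀ i : Fin n, hlaw n w p i.castSucc.castSucc
      (boxD n w i.castSucc.castSucc) = ENNReal.ofReal (1 - p) := by
    intro i
    have : boxD n w i.castSucc.castSucc = {w}ᶜ := by
      unfold boxD
      rw [if_pos]
      exact i.2
    rw [this, hlaw_small, two_apply _ _ (measurableSet_singleton _).compl]
    have h4 : w ∉ ({w} : Set ℝ≥0)ᶜ := by simp
    have h5 : (0 : ℝ≥0) ∈ ({w} : Set ℝ≥0)ᶜ := by simpa using hw.symm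
    rw [Set.indicator_of_notMem h4, Set.indicator_of_mem h5]
    simp
  have h2 : hlaw n w p (Fin.last n).castSucc (boxD n w (Fin.last n).castSucc) =
      1 := by
    have : boxD n w (Fin.last n).castSucc = Set.univ := by
      unfold boxD
      simp
    rw [this]
    exact measure_univ
  have h3 : hlaw n w p (Fin.last (n + 1)) (boxD n w (Fin.last (n + 1))) = 1 := by
    have : boxD n w (Fin.last (n + 1)) = Set.univ := by
      unfold boxD
      simp
    rw [this]
    exact measure_univ
  simp only [h1, h2, h3, Finset.prod_const, mul_one, Finset.card_univ, Fintype.card_fin]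
  rw [ENNReal.ofReal_pow (by linarith)]

theorem hard_optE (hw : w ≠ 0) :
    ENNReal.ofReal (1 + (1 - p) + w * (1 - (1 - p) ^ n)) ≤ (hard n w p hp0 hp1).optE := by
  have := fun e => hlaw_prob n w hp0 hp1 e
  have hr0 : 0 ≤ 1 - p := by linarith
  have hr1 : (1 - p) ^ n ≤ 1 := pow_le_one₀ hr0 (by linarith)
  have hCm : MeasurableSet (Set.pi Set.univ (boxC n)) :=
    MeasurableSet.univ_pi fun e => boxC_meas n e
  have hDm : MeasurableSet (Set.pi Set.univ (boxD n w)) :=
    MeasurableSet.univ_pi fun e => boxD_meas n w e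
  have h0 : (hard n w p hp0 hp1).optE =
      ∫⁻ x : Fin (n + 2) → ℝ≥0, (hopt n w p hp0 hp1 x : ℝ≥0∞) ∂(Measure.pi (hlaw n w p)) := rfl
  rw [h0]
  have h1 : ∫⁻ x : Fin (n + 2) → ℝ≥0, ((x (Fin.last (n + 1)) : ℝ≥0∞) + (Set.pi Set.univ (boxC n)).indicator 1 x +
      (w : ℝ≥0∞) * (Set.pi Set.univ (boxD n w))ᶜ.indicator 1 x) ∂(Measure.pi (hlaw n w p)) ≤
      ∫⁻ x : Fin (n + 2) → ℝ≥0, (hopt n w p hp0 hp1 x : ℝ≥0∞) ∂(Measure.pi (hlaw n w p)) := by
    refine lintegral_mono fun x => ?_
    have h2 := hard_opt n w p hp0 hp1 x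
    have h3 : (((x (Fin.last (n + 1)) + (Set.pi Set.univ (boxC n)).indicator 1 x +
      w * (Set.pi Set.univ (boxD n w))ᶜ.indicator 1 x : ℝ≥0)) : ℝ≥0∞) ≤
      (hopt n w p hp0 hp1 x : ℝ≥0∞) := ENNReal.coe_le_coe.2 h2
    refine le_trans (le_of_eq ?_) h3
    push_cast
    congr 2
  refine le_trans (le_of_eq ?_) h1
  rw [lintegral_add_right _ ((measurable_one.indicator hDm.compl).const_mul _),
    lintegral_add_right _ (measurable_one.indicator hCm), lintegral_const_mul _
      (measurable_one.indicator hDm.compl), lintegral_indicator_one hCm,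
      lintegral_indicator_one hDm.compl, prob_compl_eq_one_sub hDm, measure_C n w p hp0 hp1,
      measure_D n w p hp0 hp1 hw]
  have h2 : ∫⁻ x : Fin (n + 2) → ℝ≥0, (x (Fin.last (n + 1)) : ℝ≥0∞)
      ∂(Measure.pi (hlaw n w p)) = 1 := by
    have h3 := (measurePreserving_eval (hlaw n w p) (Fin.last (n + 1))).lintegral_comp
      measurable_coe_nnreal_ennreal
    refine h3.trans ?_
    rw [hlaw_z, lintegral_two]
    have h4 : ((Real.toNNReal (1 / p) : ℝ≥0) : ℝ≥0∞) = ENNReal.ofReal (1 / p) := rfl
    rw [h4, ← ENNReal.ofReal_mul hp0.le, mul_one_div_cancel hp0.ne']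
    simp
  rw [h2, ENNReal.ofReal_add (by linarith) (mul_nonneg (NNReal.coe_nonneg w) (by linarith)),
    ENNReal.ofReal_add zero_le_one hr0, ENNReal.ofReal_one,
    ENNReal.ofReal_mul (NNReal.coe_nonneg w),
    ENNReal.ofReal_sub _ (pow_nonneg hr0 n), ENNReal.ofReal_one]
  congr 2
  exact ENNReal.ofReal_coe_nnreal

end

end Pool.Agent.Lib.MP_2f1792_lc
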