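import Pool.Agent.Lib.MP_2f1792_lc.Upper2
import Pool.Agent.Lib.MP_2f1792_lc.HardOpt

/-!
# The exact ratio
-/

set_option linter.unusedSectionVars false

namespace Pool.Agent.Lib.MP_2f1792_lc

open Finset MeasureTheory Filter
open scoped NNReal ENNReal Topology

theorem exists_lam : ∃ l : ℝ, 0 < l ∧ l ≤ 48 / 100 ∧ Real.exp (-l) * (5 + 3 * l) = 4 := by
  have h1 : ContinuousOn (fun l : ℝ => Real.exp (-l) * (5 + 3 * l)) (Set.Icc 0 (48 / 100)) := by
    fun_prop
  have h2 := intermediate_value_Icc' (by norm_num) h1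
  have h3 : (1.61 : ℝ) ≤ Real.exp (48 / 100) := by
    have h4 : (1.1272 : ℝ) ≤ Real.exp (12 / 100) := by
      have := Real.quadratic_le_exp_of_nonneg (x := 12 / 100) (by norm_num)
      norm_num at this ⊢
      linarith
    have h5 : (1.1272 : ℝ) ^ 4 ≤ Real.exp (12 / 100) ^ 4 :=
      pow_le_pow_left₀ (by norm_num) h4 4
    rw [← Real.exp_nat_mul] at h5
    norm_num at h5 ⊢
    linarith
  have h4 : (4 : ℝ) ∈ Set.Icc (Real.exp (-(48 / 100)) * (5 + 3 * (48 / 100)))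
      (Real.exp (-0) * (5 + 3 * 0)) := by
    constructor
    · rw [Real.exp_neg, inv_mul_le_iff₀ (Real.exp_pos _)]
      norm_num at h3 ⊢
      linarith
    · norm_num
  obtain ⟨l, ⟨hl0, hl1⟩, hl2⟩ := h2 h4
  simp only at hl2
  refine ⟨l, lt_of_le_of_ne hl0 ?_, hl1, hl2⟩
  rintro rfl
  norm_num at hl2

theorem alpha_cond {l : ℝ} (hl0 : 0 < l) (h : Real.exp (-l) * (5 + 3 * l) = 4) (y : ℝ)
    (hy : 2 - 3 * ((2 + 2 * l) / (5 + 3 * l)) ≤ y) (hy1 : y ≤ 1) :
    2 * ((2 + 2 * l) / (5 + 3 * l)) ≤ y * (1 - Real.log y) := by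
  have h0 : 0 < 5 + 3 * l := by linarith
  have e0 : Real.exp (-l) = 4 / (5 + 3 * l) := by
    rw [eq_div_iff h0.ne', h]
  have e1 : 2 - 3 * ((2 + 2 * l) / (5 + 3 * l)) = Real.exp (-l) := by
    rw [e0]; field_simp; ring
  have e2 : 2 * ((2 + 2 * l) / (5 + 3 * l)) = Real.exp (-l) * (1 + l) := by
    rw [e0]; field_simp; ring
  rw [e1] at hy
  rw [e2]
  set y0 := Real.exp (-l) with hy0
  have hp : 0 < y0 := Real.exp_pos _
  have hyp : 0 < y := lt_of_lt_of_le hp hy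
  have h1 : Real.log y0 = -l := by rw [hy0, Real.log_exp]
  have h2 : 1 + l = 1 - Real.log y0 := by rw [h1]; ring
  rw [h2]
  -- log (y / y0) ≤ y / y0 - 1
  have h3 : Real.log (y / y0) ≤ y / y0 - 1 := Real.log_le_sub_one_of_pos (div_pos hyp hp)
  rw [Real.log_div hyp.ne' hp.ne'] at h3
  have h4 := mul_le_mul_of_nonneg_left h3 hp.le
  have h5 : y0 * (y / y0 - 1) = y - y0 := by field_simp
  rw [h5] at h4
  have h6 : Real.log y ≤ 0 := Real.log_nonpos hyp.le hy1
  have h7 : 0 ≤ (y - y0) * (-Real.log y) := mul_nonneg (by linarith) (by linarith)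
  nlinarith

theorem rho_upper (C : Set Inst) {l : ℝ} (hl0 : 0 < l) (hl1 : l ≤ 48 / 100)
    (h : Real.exp (-l) * (5 + 3 * l) = 4) :
    rho C ≤ ENNReal.ofReal ((5 + 3 * l) / (2 + 2 * l)) := by
  have h0 : 0 < 5 + 3 * l := by linarith
  have h1 : 0 < 2 + 2 * l := by linarith
  have h2 := rho_le C (α := (2 + 2 * l) / (5 + 3 * l)) (div_pos h1 h0) (by
    rw [div_le_iff₀ h0]
    linarith) (alpha_cond hl0 h)
  rwa [one_div_div] at h2

theorem rho_lower (C : Set Inst) (hC : R1 ∩ FM ⊆ C) {l : ℝ} (hl0 : 0 < l) (hl1 : l ≤ 48 / 100)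
    (h : Real.exp (-l) * (5 + 3 * l) = 4) :
    ENNReal.ofReal ((5 + 3 * l) / (2 + 2 * l)) ≤ rho C := by
  have h0 : 0 < 5 + 3 * l := by linarith
  have h1 : 0 < 1 + l := by linarith
  have e0 : Real.exp (-l) = 4 / (5 + 3 * l) := by
    rw [eq_div_iff h0.ne', h]
  have hwn : 0 ≤ l / (1 + l) := by positivity
  set w : ℝ≥0 := ⟨l / (1 + l), hwn⟩ with hw
  have hwr : (w : ℝ) = l / (1 + l) := rfl
  have hw0 : 0 < (w : ℝ) := by rw [hwr]; positivity
  have hw1 : (w : ℝ) < 1 := by rw [hwr, div_lt_one h1]; linarith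
  have hwne : w ≠ 0 := fun h => by rw [h] at hw0; simp at hw0
  set N : ℝ → ℝ := fun p => 2 - p + w * (1 - p) with hN
  set D : ℝ → ℝ := fun p => 2 * w + (1 - w) * Real.exp (-l) + p / (1 - p) + w * p with hD
  have hD0 : 0 < D 0 := by
    simp only [hD]
    have := mul_pos (sub_pos.2 hw1) (Real.exp_pos (-l))
    norm_num
    linarith
  have hND : N 0 / D 0 = (5 + 3 * l) / (2 + 2 * l) := by
    simp only [hN, hD]
    rw [hwr, e0]
    have h2 : 0 < 2 + 3 * l := by linarith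
    have e1 : 2 - 0 + l / (1 + l) * (1 - 0) = (2 + 3 * l) / (1 + l) := by
      field_simp; ring
    have e2 : 2 * (l / (1 + l)) + (1 - l / (1 + l)) * (4 / (5 + 3 * l)) + 0 / (1 - 0) +
        l / (1 + l) * 0 = 2 * (2 + 3 * l) / (5 + 3 * l) := by
      field_simp; ring
    rw [e1, e2]
    field_simp
  have hlim : Tendsto (fun p => ENNReal.ofReal (N p / D p)) (𝓝[>] 0)
      (𝓝 (ENNReal.ofReal ((5 + 3 * l) / (2 + 2 * l)))) := by
    rw [← hND]
    refine (ENNReal.continuous_ofReal.tendsto _).comp ?_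
    have hc : ContinuousAt (fun p => N p / D p) 0 := by
      refine ContinuousAt.div ?_ ?_ hD0.ne'
      · simp only [hN]
        fun_prop
      · simp only [hD]
        refine ContinuousAt.add (ContinuousAt.add continuousAt_const
          (ContinuousAt.div continuousAt_id (by fun_prop) (by norm_num))) (by fun_prop)
    exact hc.tendsto.mono_left nhdsWithin_le_nhds
  refine le_of_tendsto hlim ?_
  filter_upwards [Ioo_mem_nhdsGT (show (0 : ℝ) < 1 by norm_num)] with p hp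
  obtain ⟨hp0, hp1⟩ := hp
  have hr0 : 0 < 1 - p := by linarith
  have hDp : 0 < D p := by
    simp only [hD]
    have g1 := mul_pos (sub_pos.2 hw1) (Real.exp_pos (-l))
    have g2 : 0 < p / (1 - p) := div_pos hp0 hr0
    have g3 := mul_pos hw0 hp0
    linarith
  obtain ⟨n, hn⟩ := exists_pow_lt_of_lt_one hp0 (show 1 - p < 1 by linarith)
  refine le_iInf fun A => ?_
  refine le_iSup₂_of_le (hard n w p hp0 hp1)
    (hC ⟨hard_R1 n w p hp0 hp1, hard_FM n w p hp0 hp1⟩) ?_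
  rw [ENNReal.ofReal_div_of_pos hDp]
  refine ENNReal.div_le_div ?_ ?_
  · refine le_trans (ENNReal.ofReal_le_ofReal ?_) (hard_optE n w p hp0 hp1 hwne)
    simp only [hN]
    have := mul_le_mul_of_nonneg_left hn.le hw0.le
    linarith
  · unfold Inst.algE
    have := A.prob (hard n w p hp0 hp1)
    refine (lintegral_mono fun T => hard_alg n hl0 (by linarith) w hwr p hp0 hp1 T).trans ?_
    rw [lintegral_const, measure_univ, mul_one]

/-- The exact value of the competitive ratio. -/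
theorem main : rho TP = rho R1 ∧ ∃ l : ℝ, 0 < l ∧ Real.exp (-l) * (5 + 3 * l) = 4 ∧
    ∀ C : Set Inst, R1 ∩ FM ⊆ C → rho C = ENNReal.ofReal ((5 + 3 * l) / (2 + 2 * l)) := by
  obtain ⟨l, hl0, hl1, h⟩ := exists_lam
  have h1 : ∀ C : Set Inst, R1 ∩ FM ⊆ C → rho C = ENNReal.ofReal ((5 + 3 * l) / (2 + 2 * l)) :=
    fun C hC => le_antisymm (rho_upper C hl0 hl1 h) (rho_lower C hC hl0 hl1 h)
  exact ⟨by rw [h1 TP (Set.subset_univ _), h1 R1 Set.inter_subset_left], l, hl0, h, h1⟩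

end Pool.Agent.Lib.MP_2f1792_lc
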