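import Pool.Agent.Lib.MP_2f1792_lc.Val

/-!
# Expected value of the greedy rule with independent values
-/

set_option linter.unusedSectionVars false

namespace Pool.Agent.Lib.MP_2f1792_lc

open Finset MeasureTheory
open scoped NNReal ENNReal

variable {ι : Type} [Fintype ι] [DecidableEq ι]

/-- activation probability with threshold `t` -/
noncomputable def qq (μ : Measure ℝ≥0) (t : ℝ≥0∞) : ℝ := (μ {y | t ≤ (y : ℝ≥0∞)}).toReal

/-- expected value on activation with threshold `t` -/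
noncomputable def vv (μ : Measure ℝ≥0) (t : ℝ≥0∞) : ℝ :=
  (∫⁻ y in {y | t ≤ (y : ℝ≥0∞)}, (y : ℝ≥0∞) ∂μ).toReal

theorem meas_ge (t : ℝ≥0∞) : MeasurableSet {y : ℝ≥0 | t ≤ (y : ℝ≥0∞)} :=
  measurableSet_le measurable_const measurable_coe_nnreal_ennreal

theorem measurable_val (r : ι → ℕ) (k : ℕ) (n : ℕ) (T : Fin n → ℝ≥0∞) (p : Fin n → ι)
    (c : ι → ℕ) :
    Measurable fun x : Fin n → ℝ≥0 => val r k (List.ofFn fun e => (T e, x e, p e)) c := by
  induction n generalizing c with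
  | zero => simp [val]
  | succ n ih =>
    have h1 : ∀ c, Measurable fun x : Fin (n + 1) → ℝ≥0 =>
        val r k (List.ofFn fun e : Fin n => (T e.succ, x e.succ, p e.succ)) c := fun c =>
      (ih (fun e => T e.succ) (fun e => p e.succ) c).comp
        (measurable_pi_lambda (fun x : Fin (n + 1) → ℝ≥0 => fun e : Fin n => x e.succ)
          fun e => measurable_pi_apply _)
    simp only [List.ofFn_succ]
    unfold val
    simp only
    refine Measurable.ite ?_ ((Measurable.ite (MeasurableSet.const _) (measurable_pi_apply 0)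
      measurable_const).add (h1 _)) (h1 _)
    exact measurableSet_le measurable_const (measurable_coe_nnreal_ennreal.comp
      (measurable_pi_apply 0))

theorem Rw_nonneg (r : ι → ℕ) (k : ℕ) (l : List (ℝ × ℝ × ι))
    (hl : ∀ a ∈ l, 0 ≤ a.1 ∧ a.1 ≤ 1 ∧ 0 ≤ a.2.1) (c : ι → ℕ) : 0 ≤ Rw r k l c := by
  induction l generalizing c with
  | nil => exact le_rfl
  | cons a l ih =>
    obtain ⟨h1, h2, h3⟩ := hl a (by simp)
    have ih' := ih fun b hb => hl b (List.mem_cons_of_mem _ hb)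
    unfold Rw
    have := mul_nonneg h3 (fr_nonneg r k a.2.2 c)
    have := mul_nonneg (sub_nonneg.2 h2) (ih' c)
    have := mul_nonneg h1 (ih' (inc c a.2.2))
    linarith

theorem qq_nonneg (μ : Measure ℝ≥0) (t : ℝ≥0∞) : 0 ≤ qq μ t := ENNReal.toReal_nonneg

theorem qq_le_one (μ : Measure ℝ≥0) [IsProbabilityMeasure μ] (t : ℝ≥0∞) : qq μ t ≤ 1 :=
  ENNReal.toReal_le_of_le_ofReal zero_le_one (by simpa using prob_le_one)

theorem vv_nonneg (μ : Measure ℝ≥0) (t : ℝ≥0∞) : 0 ≤ vv μ t := ENNReal.toReal_nonneg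

theorem Rw_ofFn_nonneg (r : ι → ℕ) (k : ℕ) (n : ℕ) (μ : Fin n → Measure ℝ≥0)
    [∀ e, IsProbabilityMeasure (μ e)] (T : Fin n → ℝ≥0∞) (p : Fin n → ι) (c : ι → ℕ) :
    0 ≤ Rw r k (List.ofFn fun e => (qq (μ e) (T e), vv (μ e) (T e), p e)) c := by
  refine Rw_nonneg r k _ (fun a ha => ?_) c
  obtain ⟨e, rfl⟩ := (List.mem_ofFn' _ _).1 ha
  exact ⟨qq_nonneg _ _, qq_le_one _ _, vv_nonneg _ _⟩

theorem lintegral_val (r : ι → ℕ) (k : ℕ) (n : ℕ) (μ : Fin n → Measure ℝ≥0)
    [∀ e, IsProbabilityMeasure (μ e)] (hμ : ∀ e, ∫⁻ y, (y : ℝ≥0∞) ∂(μ e) ≠ ⊤)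
    (T : Fin n → ℝ≥0∞) (p : Fin n → ι) (c : ι → ℕ) :
    ∫⁻ x, (val r k (List.ofFn fun e => (T e, x e, p e)) c : ℝ≥0∞) ∂(Measure.pi μ) =
      ENNReal.ofReal (Rw r k (List.ofFn fun e => (qq (μ e) (T e), vv (μ e) (T e), p e)) c) := by
  induction n generalizing c with
  | zero => simp [val, Rw]
  | succ n ih =>
    have hm := (measurable_val r k (n + 1) T p c).coe_nnreal_ennreal
    have ih' := fun c => ih (fun e => μ e.succ) (fun e => hμ e.succ) (fun e => T e.succ)
      (fun e => p e.succ) c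
    have e1 := ((measurePreserving_piFinSuccAbove μ 0).symm).lintegral_comp_emb
      (MeasurableEquiv.measurableEmbedding _)
      (fun x => (val r k (List.ofFn fun e => (T e, x e, p e)) c : ℝ≥0∞))
    rw [← e1, lintegral_prod]
    swap
    · exact (hm.comp (MeasurableEquiv.measurable _)).aemeasurable
    have e2 : ∀ (y : ℝ≥0) (z : Fin n → ℝ≥0),
        (val r k (List.ofFn fun e => (T e, (MeasurableEquiv.piFinSuccAbove
          (fun _ : Fin (n + 1) => ℝ≥0) 0).symm (y, z) e, p e)) c : ℝ≥0∞) =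
        if T 0 ≤ (y : ℝ≥0∞) then (if Free r k (p 0) c then (y : ℝ≥0∞) else 0) +
          (val r k (List.ofFn fun e : Fin n => (T e.succ, z e, p e.succ)) (inc c (p 0)) : ℝ≥0∞)
        else (val r k (List.ofFn fun e : Fin n => (T e.succ, z e, p e.succ)) c : ℝ≥0∞) := by
      intro y z
      have e3 : (MeasurableEquiv.piFinSuccAbove (fun _ : Fin (n + 1) => ℝ≥0) 0).symm (y, z) =
          Fin.cons y z := by
        ext e
        refine Fin.cases ?_ (fun e => ?_) e <;> simp [MeasurableEquiv.piFinSuccAbove]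
      rw [e3, List.ofFn_succ, val_cons]
      simp only [Fin.cons_zero, Fin.cons_succ]
      split_ifs <;> simp
    simp only [e2]
    set q := qq (μ 0) (T 0) with hq
    set v := vv (μ 0) (T 0) with hv
    set s : Set ℝ≥0 := {y | T 0 ≤ (y : ℝ≥0∞)} with hs
    have hsm : MeasurableSet s := meas_ge _
    set R : (ι → ℕ) → ℝ := Rw r k (List.ofFn fun e : Fin n =>
      (qq (μ e.succ) (T e.succ), vv (μ e.succ) (T e.succ), p e.succ)) with hR
    have hR0 : ∀ c, 0 ≤ R c := fun c => Rw_ofFn_nonneg r k n (fun e => μ e.succ)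
      (fun e => T e.succ) (fun e => p e.succ) c
    have e4 : ∀ y : ℝ≥0, y ∈ s → (∫⁻ z, (if T 0 ≤ (y : ℝ≥0∞) then
          (if Free r k (p 0) c then (y : ℝ≥0∞) else 0) +
          (val r k (List.ofFn fun e : Fin n => (T e.succ, z e, p e.succ)) (inc c (p 0)) : ℝ≥0∞)
        else (val r k (List.ofFn fun e : Fin n => (T e.succ, z e, p e.succ)) c : ℝ≥0∞))
        ∂(Measure.pi fun j : Fin n => μ (Fin.succAbove 0 j))) =
        (if Free r k (p 0) c then (y : ℝ≥0∞) else 0) + ENNReal.ofReal (R (inc c (p 0))) := by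
      intro y hy
      have hy' : T 0 ≤ (y : ℝ≥0∞) := hy
      simp only [if_pos hy', Fin.zero_succAbove]
      rw [lintegral_add_left measurable_const, lintegral_const, measure_univ, mul_one, ih']
    have e5 : ∀ y : ℝ≥0, y ∈ sᶜ → (∫⁻ z, (if T 0 ≤ (y : ℝ≥0∞) then
          (if Free r k (p 0) c then (y : ℝ≥0∞) else 0) +
          (val r k (List.ofFn fun e : Fin n => (T e.succ, z e, p e.succ)) (inc c (p 0)) : ℝ≥0∞)
        else (val r k (List.ofFn fun e : Fin n => (T e.succ, z e, p e.succ)) c : ℝ≥0∞))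
        ∂(Measure.pi fun j : Fin n => μ (Fin.succAbove 0 j))) = ENNReal.ofReal (R c) := by
      intro y hy
      have hy' : ¬ T 0 ≤ (y : ℝ≥0∞) := hy
      simp only [if_neg hy', Fin.zero_succAbove]
      rw [ih']
    rw [← lintegral_add_compl _ hsm, setLIntegral_congr_fun hsm e4,
      setLIntegral_congr_fun hsm.compl e5, setLIntegral_const,
      lintegral_add_right _ measurable_const, setLIntegral_const]
    have e6 : ∫⁻ y in s, (if Free r k (p 0) c then (y : ℝ≥0∞) else 0) ∂(μ 0) =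
        ENNReal.ofReal (v * fr r k (p 0) c) := by
      unfold fr
      split_ifs
      · rw [mul_one, hv]
        unfold vv
        rw [ENNReal.ofReal_toReal]
        exact ne_top_of_le_ne_top (hμ 0) (setLIntegral_le_lintegral _ _)
      · simp
    have e7 : (μ 0) s = ENNReal.ofReal q := by
      rw [hq]
      unfold qq
      rw [ENNReal.ofReal_toReal (measure_ne_top _ _)]
    have e8 : (μ 0) sᶜ = ENNReal.ofReal (1 - q) := by
      rw [prob_compl_eq_one_sub hsm, e7, ENNReal.ofReal_sub _ (qq_nonneg _ _), ENNReal.ofReal_one]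
    have hq0 : 0 ≤ q := qq_nonneg _ _
    have hq1 : 0 ≤ 1 - q := sub_nonneg.2 (qq_le_one _ _)
    rw [e6, e7, e8, ← ENNReal.ofReal_mul (hR0 _), ← ENNReal.ofReal_mul (hR0 _), List.ofFn_succ]
    unfold Rw
    simp only
    rw [← hR, ← hq, ← hv, ← ENNReal.ofReal_add, ← ENNReal.ofReal_add]
    · congr 1
      ring
    · have := mul_nonneg (vv_nonneg (μ 0) (T 0)) (fr_nonneg r k (p 0) c)
      have := mul_nonneg (hR0 (inc c (p 0))) hq0
      positivity
    · exact mul_nonneg (hR0 _) hq1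
    · exact mul_nonneg (vv_nonneg (μ 0) (T 0)) (fr_nonneg r k (p 0) c)
    · exact mul_nonneg (hR0 _) hq0

/-- expected value with fixed thresholds -/
theorem lintegral_acc (I : Inst) (hI : I ∈ FM) (T : Fin I.n → ℝ≥0∞) :
    ∫⁻ x, ((∑ e ∈ I.acc T x, x e : ℝ≥0) : ℝ≥0∞) ∂(Measure.pi I.law) =
      ENNReal.ofReal (Rw I.cap I.k
        (List.ofFn fun e => (qq (I.law e) (T e), vv (I.law e) (T e), I.part e)) 0) := by
  have := I.prob
  simp only [sum_acc]
  exact lintegral_val I.cap I.k I.n I.law hI T I.part 0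

end Pool.Agent.Lib.MP_2f1792_lc
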