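import Pool.Agent.Lib.MP_2f1792_lc.Meas

/-!
# The prophet's value as a fractional selection
-/

set_option linter.unusedSectionVars false

namespace Pool.Agent.Lib.MP_2f1792_lc

open Finset MeasureTheory
open scoped NNReal ENNReal

variable (I : Inst)

/-- indicator of a maximising set -/
noncomputable def ind (S : Finset (Fin I.n)) (x : Fin I.n → ℝ≥0) : ℝ :=
  if ∑ e ∈ S, x e = I.opt x then 1 else 0

/-- fraction of the maximising independent sets that contain `e` -/
noncomputable def DD (e : Fin I.n) (x : Fin I.n → ℝ≥0) : ℝ :=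
  (∑ S ∈ univ.filter I.Indep, if e ∈ S then ind I S x else 0) /
    ∑ S ∈ univ.filter I.Indep, ind I S x

theorem indep_empty : I.Indep ∅ := by
  refine ⟨fun i => ?_, ?_⟩ <;> simp

theorem ind_nonneg (S : Finset (Fin I.n)) (x : Fin I.n → ℝ≥0) : 0 ≤ ind I S x := by
  unfold ind; split_ifs <;> norm_num

theorem den_pos (x : Fin I.n → ℝ≥0) : 0 < ∑ S ∈ univ.filter I.Indep, ind I S x := by
  obtain ⟨S, hS, h⟩ := Finset.exists_mem_eq_sup (univ.filter I.Indep)
    ⟨∅, Finset.mem_filter.2 ⟨Finset.mem_univ _, indep_empty I⟩⟩ fun S => ∑ e ∈ S, x e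
  have h1 : ind I S x = 1 := by
    unfold ind
    rw [if_pos]
    exact h.symm
  have h2 := Finset.single_le_sum (f := fun S => ind I S x) (fun S _ => ind_nonneg I S x) hS
  simp only [h1] at h2
  linarith

theorem DD_nonneg (e : Fin I.n) (x : Fin I.n → ℝ≥0) : 0 ≤ DD I e x := by
  refine div_nonneg (Finset.sum_nonneg fun S _ => ?_) (den_pos I x).le
  split_ifs
  · exact ind_nonneg I S x
  · exact le_rfl

theorem DD_le_one (e : Fin I.n) (x : Fin I.n → ℝ≥0) : DD I e x ≤ 1 := by
  refine (div_le_one (den_pos I x)).2 (Finset.sum_le_sum fun S _ => ?_)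
  split_ifs
  · exact le_rfl
  · exact ind_nonneg I S x

theorem sum_DD_mul (x : Fin I.n → ℝ≥0) (w : Fin I.n → ℝ) :
    ∑ e, w e * DD I e x = (∑ S ∈ univ.filter I.Indep, ind I S x * ∑ e ∈ S, w e) /
      ∑ S ∈ univ.filter I.Indep, ind I S x := by
  unfold DD
  simp only [mul_div_assoc']
  rw [← Finset.sum_div]
  congr 1
  simp only [Finset.mul_sum]
  rw [Finset.sum_comm]
  refine Finset.sum_congr rfl fun S _ => ?_
  rw [← Finset.sum_subset (Finset.subset_univ S)]
  · refine Finset.sum_congr rfl fun e he => ?_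
    rw [if_pos he, mul_comm]
  · intro e _ he
    rw [if_neg he, mul_zero]

theorem sum_DD_le (x : Fin I.n → ℝ≥0) (w : Fin I.n → ℝ) (b : ℝ)
    (hw : ∀ S, I.Indep S → ∑ e ∈ S, w e ≤ b) : ∑ e, w e * DD I e x ≤ b := by
  rw [sum_DD_mul, div_le_iff₀ (den_pos I x), Finset.mul_sum]
  refine Finset.sum_le_sum fun S hS => ?_
  rw [mul_comm]
  exact mul_le_mul_of_nonneg_right (hw S (Finset.mem_filter.1 hS).2) (ind_nonneg I S x)

theorem sum_DD_opt (x : Fin I.n → ℝ≥0) : ∑ e, (x e : ℝ) * DD I e x = I.opt x := by
  rw [sum_DD_mul, div_eq_iff (den_pos I x).ne', Finset.mul_sum]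
  refine Finset.sum_congr rfl fun S hS => ?_
  unfold ind
  split_ifs with h
  · rw [← h]
    push_cast
    ring
  · ring

theorem sum_DD_k (x : Fin I.n → ℝ≥0) : ∑ e, DD I e x ≤ I.k := by
  have := sum_DD_le I x (fun _ => 1) I.k fun S hS => by
    simpa using hS.2
  simpa using this

theorem sum_DD_cap (x : Fin I.n → ℝ≥0) (i : Fin I.m) :
    ∑ e, (if I.part e = i then DD I e x else 0) ≤ I.cap i := by
  have := sum_DD_le I x (fun e => if I.part e = i then 1 else 0) (I.cap i) fun S hS => by
    rw [Finset.sum_boole]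
    exact_mod_cast hS.1 i
  simpa using this

theorem measurable_opt : Measurable I.opt := by
  unfold Inst.opt
  have : ∀ A : Finset (Finset (Fin I.n)),
      Measurable fun x : Fin I.n → ℝ≥0 => A.sup fun S => ∑ e ∈ S, x e := by
    intro A
    induction A using Finset.induction with
    | empty => simp
    | insert S A _ ih =>
      simp only [Finset.sup_insert]
      exact (Finset.measurable_sum _ fun e _ => measurable_pi_apply e).sup ih
  exact this _

theorem measurable_ind (S : Finset (Fin I.n)) : Measurable (ind I S) := by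
  unfold ind
  exact Measurable.ite (measurableSet_eq_fun (Finset.measurable_sum _ fun e _ =>
    measurable_pi_apply e) (measurable_opt I)) measurable_const measurable_const

theorem measurable_DD (e : Fin I.n) : Measurable (DD I e) := by
  unfold DD
  refine Measurable.div (Finset.measurable_sum _ fun S _ => ?_)
    (Finset.measurable_sum _ fun S _ => measurable_ind I S)
  split_ifs
  · exact measurable_ind I S
  · exact measurable_const

end Pool.Agent.Lib.MP_2f1792_lc
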