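import Pool.Agent.Lib.MP_2f1792_lc.Free

/-!
# Rewards, the contention resolution scheme and derandomisation
-/

set_option linter.unusedSectionVars false

namespace Pool.Agent.Lib.MP_2f1792_lc

open Finset

variable {ι : Type} [Fintype ι] [DecidableEq ι]

/-- expected reward of the greedy rule; the list holds the activation probability, the expected
value on activation and the part of each element -/
noncomputable def Rw (r : ι → ℕ) (k : ℕ) : List (ℝ × ℝ × ι) → (ι → ℕ) → ℝ
  | [], _ => 0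
  | a :: l, c => a.2.1 * fr r k a.2.2 c + ((1 - a.1) * Rw r k l c + a.1 * Rw r k l (inc c a.2.2))

theorem Ex_Rw_cons (r : ι → ℕ) (k : ℕ) (l : List (ℝ × ι)) (a : ℝ × ℝ × ι)
    (l' : List (ℝ × ℝ × ι)) :
    Ex l (Rw r k (a :: l')) 0 = a.2.1 * Ex l (fr r k a.2.2) 0 +
      Ex (l ++ [(a.1, a.2.2)]) (Rw r k l') 0 := by
  rw [Ex_snoc, ← Ex_smul, ← Ex_add]
  rfl

/-- the second potential -/
noncomputable def pot (r : ι → ℕ) (k : ℕ) (i : ι) (c : ι → ℕ) : ℝ :=
  if rk r (univ.erase i) c + r i ≤ k then ((min (r i) (c i) : ℕ) : ℝ) else 0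

theorem pot_inc (r : ι → ℕ) (k : ℕ) (i j : ι) (c : ι → ℕ) :
    pot r k i (inc c j) ≤ pot r k i c + if j = i then fr r k i c else 0 := by
  unfold pot
  have h1 := rk_inc r (univ.erase i) c j
  by_cases hj : j = i
  · subst hj
    rw [if_pos rfl]
    rw [if_neg (fun h => (Finset.notMem_erase j univ) h.1), add_zero] at h1
    rw [h1, inc_same]
    by_cases h2 : rk r (univ.erase j) c + r j ≤ k
    · rw [if_pos h2, if_pos h2]
      by_cases h3 : c j < r j
      · have h4 : Free r k j c := by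
          refine ⟨h3, ?_⟩
          have := rk_split r j c
          omega
        unfold fr
        rw [if_pos h4]
        have h5 : min (r j) (c j + 1) ≤ min (r j) (c j) + 1 := by omega
        exact_mod_cast h5
      · have h5 : min (r j) (c j + 1) = min (r j) (c j) := by omega
        rw [h5]
        have := fr_nonneg r k j c
        linarith
    · rw [if_neg h2, if_neg h2]
      have := fr_nonneg r k j c
      linarith
  · rw [if_neg hj, add_zero, inc_ne c (Ne.symm hj)]
    by_cases h2 : rk r (univ.erase i) (inc c j) + r i ≤ k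
    · rw [if_pos h2, if_pos (by omega)]
    · rw [if_neg h2]
      split_ifs
      · exact Nat.cast_nonneg _
      · exact le_rfl

theorem tot_inc (r : ι → ℕ) (k : ℕ) (j : ι) (c : ι → ℕ) :
    ((min k (rk r univ (inc c j)) : ℕ) : ℝ) = ((min k (rk r univ c) : ℕ) : ℝ) + fr r k j c := by
  have h1 := rk_inc r univ c j
  unfold fr
  by_cases h2 : Free r k j c
  · rw [if_pos h2]
    unfold Free at h2
    rw [if_pos ⟨Finset.mem_univ j, h2.1⟩] at h1
    have : min k (rk r univ (inc c j)) = min k (rk r univ c) + 1 := by omega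
    rw [this]
    push_cast
    ring
  · rw [if_neg h2, add_zero]
    unfold Free at h2
    have : min k (rk r univ (inc c j)) = min k (rk r univ c) := by
      by_cases h3 : c j < r j
      · rw [if_pos ⟨Finset.mem_univ j, h3⟩] at h1
        omega
      · rw [if_neg (fun h => h3 h.2)] at h1
        omega
    rw [this]

/-- the contention resolution scheme -/
theorem ocrs (r : ι → ℕ) (hr : ∀ j, 1 ≤ r j) {k : ℕ} (hk : 1 ≤ k) {α : ℝ} (hα : 0 < α)
    (hα1 : α ≤ 4597 / 10000)
    (hα2 : ∀ y, 2 - 3 * α ≤ y → y ≤ 1 → 2 * α ≤ y * (1 - Real.log y))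
    (n : ℕ) (x M : Fin n → ℝ) (p : Fin n → ι) (hx0 : ∀ e, 0 ≤ x e) (hx1 : ∀ e, x e ≤ 1)
    (l : List (ℝ × ι)) (hl : PV l) (X : ℝ) (xi : ι → ℝ)
    (hZ : Ex l (fun c => ((min k (rk r univ c) : ℕ) : ℝ)) 0 ≤ α * X)
    (hY : ∀ i, Ex l (pot r k i) 0 ≤ α * xi i)
    (hX : X + ∑ e, x e ≤ k) (hxi : ∀ i, xi i + ∑ e, (if p e = i then x e else 0) ≤ r i) :
    ∃ β : Fin n → ℝ, (∀ e, 0 ≤ β e ∧ β e ≤ 1) ∧
      Ex l (Rw r k (List.ofFn fun e => (β e * x e, β e * M e, p e))) 0 = α * ∑ e, M e := by
  induction n generalizing l X xi with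
  | zero =>
    refine ⟨fun e => 0, fun e => e.elim0, ?_⟩
    have : Rw r k (List.ofFn fun e : Fin 0 => ((0 : ℝ) * x e, (0 : ℝ) * M e, p e)) =
        fun _ => 0 := by
      funext c
      simp [Rw]
    rw [this, Ex_const]
    simp
  | succ n ih =>
    set P := Ex l (fr r k (p 0)) 0 with hP
    have hs : ∀ i, 0 ≤ ∑ e, (if p e = i then x e else 0) := fun i =>
      Finset.sum_nonneg fun e _ => by split_ifs; exacts [hx0 e, le_rfl]
    have hs2 : 0 ≤ ∑ e, x e := Finset.sum_nonneg fun e _ => hx0 e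
    have hPα : α ≤ P := by
      refine free_ge r hr hk hα hα1 hα2 hl (p 0) (hZ.trans ?_) ((hY (p 0)).trans ?_)
      · exact mul_le_mul_of_nonneg_left (by linarith) hα.le
      · refine mul_le_mul_of_nonneg_left ?_ hα.le
        have := hxi (p 0)
        have := hs (p 0)
        linarith
    have hP0 : 0 < P := lt_of_lt_of_le hα hPα
    have hb0 : 0 ≤ α / P := div_nonneg hα.le hP0.le
    have hb1 : α / P ≤ 1 := (div_le_one hP0).2 hPα
    have hbP : α / P * P = α := div_mul_cancel₀ _ hP0.ne'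
    have hq0 : 0 ≤ α / P * x 0 := mul_nonneg hb0 (hx0 0)
    have hq1 : α / P * x 0 ≤ 1 := by
      have := mul_le_mul hb1 (hx1 0) (hx0 0) zero_le_one
      linarith
    have hl' : PV (l ++ [(α / P * x 0, p 0)]) := hl.snoc hq0 hq1 _
    have g1 : Ex (l ++ [(α / P * x 0, p 0)]) (fun c => ((min k (rk r univ c) : ℕ) : ℝ)) 0 ≤
        α * (X + x 0) := by
      rw [Ex_snoc]
      have e1 : (fun c => (1 - α / P * x 0) * ((min k (rk r univ c) : ℕ) : ℝ) +
          α / P * x 0 * ((min k (rk r univ (inc c (p 0))) : ℕ) : ℝ)) =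
          fun c => ((min k (rk r univ c) : ℕ) : ℝ) + α / P * x 0 * fr r k (p 0) c := by
        funext c
        rw [tot_inc]
        ring
      rw [e1, Ex_add, Ex_smul, ← hP]
      have : α / P * x 0 * P = (α / P * P) * x 0 := by ring
      rw [this, hbP]
      linarith
    have g2 : ∀ i, Ex (l ++ [(α / P * x 0, p 0)]) (pot r k i) 0 ≤
        α * (xi i + if p 0 = i then x 0 else 0) := by
      intro i
      rw [Ex_snoc]
      have e1 : Ex l (fun c => (1 - α / P * x 0) * pot r k i c +
          α / P * x 0 * pot r k i (inc c (p 0))) 0 ≤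
          Ex l (fun c => pot r k i c + α / P * x 0 * (if p 0 = i then fr r k (p 0) c else 0)) 0 := by
        refine Ex_mono hl (fun c => ?_) 0
        have h1 := mul_le_mul_of_nonneg_left (pot_inc r k i (p 0) c) hq0
        by_cases h2 : p 0 = i
        · rw [if_pos h2] at h1 ⊢
          rw [h2] at h1 ⊢
          linarith
        · rw [if_neg h2] at h1 ⊢
          linarith
      refine e1.trans ?_
      rw [Ex_add, Ex_smul]
      by_cases h2 : p 0 = i
      · simp only [if_pos h2]
        rw [← hP]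
        have : α / P * x 0 * P = (α / P * P) * x 0 := by ring
        rw [this, hbP]
        have := hY i
        linarith
      · simp only [if_neg h2]
        rw [Ex_const]
        have := hY i
        linarith
    have g3 : X + x 0 + ∑ e : Fin n, x e.succ ≤ k := by
      rw [Fin.sum_univ_succ] at hX
      linarith
    have g4 : ∀ i, (xi i + if p 0 = i then x 0 else 0) +
        ∑ e : Fin n, (if p e.succ = i then x e.succ else 0) ≤ r i := by
      intro i
      have := hxi i
      rw [Fin.sum_univ_succ] at this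
      linarith
    obtain ⟨β, hβ, hβ2⟩ := ih (fun e => x e.succ) (fun e => M e.succ) (fun e => p e.succ)
      (fun e => hx0 _) (fun e => hx1 _) (l ++ [(α / P * x 0, p 0)]) hl' (X + x 0)
      (fun i => xi i + if p 0 = i then x 0 else 0) g1 g2 g3 g4
    refine ⟨Fin.cons (α / P) β, ?_, ?_⟩
    · intro e
      refine Fin.cases ?_ (fun e => ?_) e
      · exact ⟨hb0, hb1⟩
      · simpa using hβ e
    · rw [List.ofFn_succ, Ex_Rw_cons]
      simp only [Fin.cons_zero, Fin.cons_succ]
      rw [hβ2, Fin.sum_univ_succ, ← hP]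
      have : α / P * M 0 * P = (α / P * P) * M 0 := by ring
      rw [this, hbP]
      ring

/-- the pair `(q, v)` is dominated by the convex hull of `O` -/
def Dom (O : Set (ℝ × ℝ)) (q v : ℝ) : Prop :=
  ∀ P, 0 ≤ P → ∀ s : ℝ, ∃ o ∈ O, v * P + s * q ≤ o.2 * P + s * o.1

/-- derandomisation -/
theorem derand (r : ι → ℕ) (k : ℕ) (n : ℕ) (q v : Fin n → ℝ) (p : Fin n → ι)
    (O : Fin n → Set (ℝ × ℝ)) (hO : ∀ e, ∀ o ∈ O e, 0 ≤ o.1 ∧ o.1 ≤ 1)
    (hD : ∀ e, Dom (O e) (q e) (v e)) (l : List (ℝ × ι)) (hl : PV l) :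
    ∃ w : Fin n → ℝ × ℝ, (∀ e, w e ∈ O e) ∧
      Ex l (Rw r k (List.ofFn fun e => (q e, v e, p e))) 0 ≤
        Ex l (Rw r k (List.ofFn fun e => ((w e).1, (w e).2, p e))) 0 := by
  induction n generalizing l with
  | zero =>
    refine ⟨fun e => 0, fun e => e.elim0, ?_⟩
    simp
  | succ n ih =>
    set R : (ι → ℕ) → ℝ := Rw r k (List.ofFn fun e : Fin n => (q e.succ, v e.succ, p e.succ))
      with hR
    have hsplit : ∀ a b : ℝ, Ex l (Rw r k ((a, b, p 0) ::
        List.ofFn fun e : Fin n => (q e.succ, v e.succ, p e.succ))) 0 =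
        Ex l R 0 + (b * Ex l (fr r k (p 0)) 0 +
          (Ex l (fun c => R (inc c (p 0))) 0 - Ex l R 0) * a) := by
      intro a b
      rw [Ex_Rw_cons, Ex_snoc, Ex_add, Ex_smul, Ex_smul]
      simp only [← hR]
      ring
    obtain ⟨o, ho, h1⟩ := hD 0 (Ex l (fr r k (p 0)) 0) (Ex_nonneg hl (fr_nonneg _ _ _) 0)
      (Ex l (fun c => R (inc c (p 0))) 0 - Ex l R 0)
    obtain ⟨h2, h3⟩ := hO 0 o ho
    obtain ⟨w, hw, h4⟩ := ih (fun e => q e.succ) (fun e => v e.succ) (fun e => p e.succ)
      (fun e => O e.succ) (fun e => hO _) (fun e => hD _) (l ++ [(o.1, p 0)])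
      (hl.snoc h2 h3 _)
    refine ⟨Fin.cons o w, ?_, ?_⟩
    · intro e
      refine Fin.cases ?_ (fun e => ?_) e
      · exact ho
      · simpa using hw e
    · rw [List.ofFn_succ, List.ofFn_succ, hsplit]
      simp only [Fin.cons_zero, Fin.cons_succ]
      have h5 := hsplit o.1 o.2
      rw [Ex_Rw_cons] at h5
      rw [Ex_Rw_cons]
      linarith

end Pool.Agent.Lib.MP_2f1792_lc
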