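import Pool.Agent.Lib.MP_2f1792_lc.Opt

/-!
# Thresholds that are competitive on an instance
-/

set_option linter.unusedSectionVars false

namespace Pool.Agent.Lib.MP_2f1792_lc

open Finset MeasureTheory
open scoped NNReal ENNReal

variable (I : Inst)

/-- probability of selection -/
noncomputable def yy (e : Fin I.n) : ℝ := ∫ x, DD I e x ∂(Measure.pi I.law)

/-- expected value from selection -/
noncomputable def MM (e : Fin I.n) : ℝ := ∫ x, (x e : ℝ) * DD I e x ∂(Measure.pi I.law)

theorem integrable_coe {μ : Measure ℝ≥0} (h : ∫⁻ y, (y : ℝ≥0∞) ∂μ ≠ ⊤) :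
    Integrable (fun y : ℝ≥0 => (y : ℝ)) μ := by
  refine ⟨measurable_coe_nnreal_real.aestronglyMeasurable, ?_⟩
  rw [hasFiniteIntegral_iff_ofReal (Filter.Eventually.of_forall fun y => NNReal.coe_nonneg y)]
  simp only [ENNReal.ofReal_coe_nnreal]
  exact lt_top_iff_ne_top.2 h

theorem integrable_coord (hI : I ∈ FM) (e : Fin I.n) :
    Integrable (fun x : Fin I.n → ℝ≥0 => (x e : ℝ)) (Measure.pi I.law) := by
  have := I.prob
  exact (measurePreserving_eval I.law e).integrable_comp_of_integrable (integrable_coe (hI e))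

theorem integrable_DD (e : Fin I.n) : Integrable (DD I e) (Measure.pi I.law) := by
  have := I.prob
  refine Integrable.mono' (integrable_const (1 : ℝ)) (measurable_DD I e).aestronglyMeasurable
    (Filter.Eventually.of_forall fun x => ?_)
  rw [Real.norm_of_nonneg (DD_nonneg I e x)]
  exact DD_le_one I e x

theorem integrable_mul_DD (hI : I ∈ FM) (e : Fin I.n) :
    Integrable (fun x : Fin I.n → ℝ≥0 => (x e : ℝ) * DD I e x) (Measure.pi I.law) := by
  refine Integrable.mono' (integrable_coord I hI e)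
    (((measurable_coe_nnreal_real.comp (measurable_pi_apply e)).mul
      (measurable_DD I e)).aestronglyMeasurable) (Filter.Eventually.of_forall fun x => ?_)
  rw [Real.norm_of_nonneg (mul_nonneg (NNReal.coe_nonneg _) (DD_nonneg I e x))]
  exact mul_le_of_le_one_right (NNReal.coe_nonneg _) (DD_le_one I e x)

theorem yy_nonneg (e : Fin I.n) : 0 ≤ yy I e := integral_nonneg fun x => DD_nonneg I e x

theorem yy_le_one (e : Fin I.n) : yy I e ≤ 1 := by
  have := I.prob
  unfold yy
  have h := integral_mono (integrable_DD I e) (integrable_const (1 : ℝ))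
    (fun x => DD_le_one I e x)
  simpa using h

theorem MM_nonneg (e : Fin I.n) : 0 ≤ MM I e :=
  integral_nonneg fun x => mul_nonneg (NNReal.coe_nonneg _) (DD_nonneg I e x)

theorem sum_yy_k : ∑ e, yy I e ≤ I.k := by
  have := I.prob
  unfold yy
  rw [← integral_finsetSum _ fun e _ => integrable_DD I e]
  have h := integral_mono (integrable_finsetSum univ fun e _ => integrable_DD I e)
    (integrable_const (μ := Measure.pi I.law) (I.k : ℝ)) (fun x => by
      simpa using sum_DD_k I x)
  simpa using h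

theorem sum_yy_cap (i : Fin I.m) : ∑ e, (if I.part e = i then yy I e else 0) ≤ I.cap i := by
  have := I.prob
  have h0 : ∀ e, (if I.part e = i then yy I e else 0) =
      ∫ x, (if I.part e = i then DD I e x else 0) ∂(Measure.pi I.law) := by
    intro e
    split_ifs
    · rfl
    · simp
  have h1 : ∀ e, Integrable (fun x => if I.part e = i then DD I e x else 0)
      (Measure.pi I.law) := by
    intro e
    split_ifs
    · exact integrable_DD I e
    · exact integrable_zero _ _ _
  simp only [h0]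
  rw [← integral_finsetSum _ fun e _ => h1 e]
  have h := integral_mono (integrable_finsetSum univ fun e _ => h1 e)
    (integrable_const (μ := Measure.pi I.law) (I.cap i : ℝ)) (fun x => by
      simpa using sum_DD_cap I x i)
  simpa using h

theorem optE_eq (hI : I ∈ FM) : I.optE = ENNReal.ofReal (∑ e, MM I e) := by
  have := I.prob
  unfold MM Inst.optE
  rw [← integral_finsetSum _ fun e _ => integrable_mul_DD I hI e]
  simp only [sum_DD_opt]
  have h1 : Integrable (fun x => ((I.opt x : ℝ≥0) : ℝ)) (Measure.pi I.law) := by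
    have := integrable_finsetSum univ fun e _ => integrable_mul_DD I hI e
    simpa only [sum_DD_opt] using this
  rw [ofReal_integral_eq_lintegral_ofReal h1 (Filter.Eventually.of_forall fun x =>
    NNReal.coe_nonneg _)]
  simp only [ENNReal.ofReal_coe_nnreal]

theorem vv_eq {μ : Measure ℝ≥0} (t : ℝ≥0∞) :
    vv μ t = ∫ y in {y | t ≤ (y : ℝ≥0∞)}, (y : ℝ) ∂μ := by
  unfold vv
  rw [integral_eq_lintegral_of_nonneg_ae (Filter.Eventually.of_forall fun y => NNReal.coe_nonneg y)
    measurable_coe_nnreal_real.aestronglyMeasurable]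
  simp only [ENNReal.ofReal_coe_nnreal]

theorem vv_qq {μ : Measure ℝ≥0} [IsProbabilityMeasure μ] (h : ∫⁻ y, (y : ℝ≥0∞) ∂μ ≠ ⊤)
    (t : ℝ≥0∞) (P s : ℝ) :
    vv μ t * P + s * qq μ t = ∫ y in {y | t ≤ (y : ℝ≥0∞)}, (P * (y : ℝ) + s) ∂μ := by
  rw [vv_eq, integral_add ((integrable_coe h).integrableOn.const_mul P) (integrable_const s),
    integral_const_mul, integral_const]
  unfold qq
  rw [Measure.real, Measure.restrict_apply_univ, smul_eq_mul]
  ring

/-- the threshold at which the weight changes sign -/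
theorem exists_thr (P : ℝ) (hP : 0 ≤ P) (s : ℝ) :
    ∃ t : ℝ≥0∞, ∀ y : ℝ≥0, t ≤ (y : ℝ≥0∞) ↔ 0 ≤ P * (y : ℝ) + s := by
  rcases eq_or_lt_of_le hP with h | h
  · subst h
    by_cases hs : 0 ≤ s
    · exact ⟨0, fun y => by simpa using hs⟩
    · refine ⟨⊤, fun y => ?_⟩
      simp only [top_le_iff, ENNReal.coe_ne_top, false_iff, zero_mul, zero_add]
      exact hs
  · refine ⟨ENNReal.ofReal (-s / P), fun y => ?_⟩
    unfold ENNReal.ofReal
    rw [ENNReal.coe_le_coe, Real.toNNReal_le_iff_le_coe, div_le_iff₀ h]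
    constructor <;> intro h1 <;> linarith

theorem dom (hI : I ∈ FM) (e : Fin I.n) (β : ℝ) (hβ0 : 0 ≤ β) (hβ1 : β ≤ 1) :
    Dom (Set.range fun t => (qq (I.law e) t, vv (I.law e) t)) (β * yy I e) (β * MM I e) := by
  have := I.prob
  intro P hP s
  obtain ⟨t, ht⟩ := exists_thr P hP s
  refine ⟨_, ⟨t, rfl⟩, ?_⟩
  simp only
  rw [vv_qq (hI e)]
  set A : Set ℝ≥0 := {y | t ≤ (y : ℝ≥0∞)} with hA
  have hAm : MeasurableSet A := meas_ge t
  have e1 : ∫ y in A, (P * (y : ℝ) + s) ∂(I.law e) =
      ∫ x, A.indicator (fun y : ℝ≥0 => P * (y : ℝ) + s) (x e) ∂(Measure.pi I.law) := by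
    rw [← integral_indicator hAm]
    have h2 := (measurePreserving_eval I.law e).map_eq
    rw [← integral_map (μ := Measure.pi I.law) (φ := Function.eval e)
      (measurable_pi_apply e).aemeasurable, h2]
    rw [h2]
    exact (Measurable.indicator (by fun_prop) hAm).aestronglyMeasurable
  have e2 : β * MM I e * P + s * (β * yy I e) =
      ∫ x, (β * P * ((x e : ℝ) * DD I e x) + β * s * DD I e x) ∂(Measure.pi I.law) := by
    rw [integral_add ((integrable_mul_DD I hI e).const_mul _) ((integrable_DD I e).const_mul _),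
      integral_const_mul, integral_const_mul]
    unfold MM yy
    ring
  rw [e1, e2]
  refine integral_mono (((integrable_mul_DD I hI e).const_mul _).add
    ((integrable_DD I e).const_mul _)) ?_ ?_
  · have h3 : Integrable (A.indicator fun y : ℝ≥0 => P * (y : ℝ) + s) (I.law e) :=
      (((integrable_coe (hI e)).const_mul P).add (integrable_const s)).indicator hAm
    exact (measurePreserving_eval I.law e).integrable_comp_of_integrable h3
  · intro x
    simp only
    have h4 : β * P * ((x e : ℝ) * DD I e x) + β * s * DD I e x =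
        (β * DD I e x) * (P * (x e : ℝ) + s) := by ring
    rw [h4]
    have h5 : 0 ≤ β * DD I e x := mul_nonneg hβ0 (DD_nonneg I e x)
    have h6 : β * DD I e x ≤ 1 := mul_le_one₀ hβ1 (DD_nonneg I e x) (DD_le_one I e x)
    by_cases h7 : x e ∈ A
    · rw [Set.indicator_of_mem h7]
      have h8 := (ht (x e)).1 h7
      exact mul_le_of_le_one_left h8 h6
    · rw [Set.indicator_of_notMem h7]
      have h8 : ¬ 0 ≤ P * (x e : ℝ) + s := fun h => h7 ((ht (x e)).2 h)
      exact mul_nonpos_of_nonneg_of_nonpos h5 (not_le.1 h8).le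

/-- competitive thresholds, finite means -/
theorem exists_T (hI : I ∈ FM) {α : ℝ} (hα : 0 < α) (hα1 : α ≤ 4597 / 10000)
    (hα2 : ∀ y, 2 - 3 * α ≤ y → y ≤ 1 → 2 * α ≤ y * (1 - Real.log y)) :
    ∃ T : Fin I.n → ℝ≥0∞, ENNReal.ofReal α * I.optE ≤
      ∫⁻ x, ((∑ e ∈ I.acc T x, x e : ℝ≥0) : ℝ≥0∞) ∂(Measure.pi I.law) := by
  have := I.prob
  have hl : PV ([] : List (ℝ × Fin I.m)) := fun a ha => absurd ha List.not_mem_nil
  obtain ⟨β, hβ, h1⟩ := ocrs I.cap I.cap_pos I.k_pos hα hα1 hα2 I.n (yy I) (MM I) I.part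
    (yy_nonneg I) (yy_le_one I) [] hl 0 (fun _ => 0)
    (by simp [Ex, rk_zero]) (by
      intro i
      simp [Ex, pot]) (by simpa using sum_yy_k I) (by simpa using sum_yy_cap I)
  obtain ⟨w, hw, h2⟩ := derand I.cap I.k I.n (fun e => β e * yy I e) (fun e => β e * MM I e)
    I.part (fun e => Set.range fun t => (qq (I.law e) t, vv (I.law e) t)) (by
      rintro e o ⟨t, rfl⟩
      exact ⟨qq_nonneg _ _, qq_le_one _ _⟩)
    (fun e => dom I hI e (β e) (hβ e).1 (hβ e).2) [] hl
  choose T hT using hw
  refine ⟨T, ?_⟩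
  rw [lintegral_acc I hI T, optE_eq I hI, ← ENNReal.ofReal_mul hα.le]
  refine ENNReal.ofReal_le_ofReal ?_
  rw [← h1]
  refine h2.trans (le_of_eq ?_)
  have h3 : (List.ofFn fun e => ((w e).1, (w e).2, I.part e)) =
      List.ofFn fun e => (qq (I.law e) (T e), vv (I.law e) (T e), I.part e) := by
    congr 1
    funext e
    rw [← hT e]
  rw [h3]
  rfl

end Pool.Agent.Lib.MP_2f1792_lc
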