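import Pool.Agent.Lib.MP_2f1792_lc.Upper

/-!
# The upper bound for the ratio
-/

set_option linter.unusedSectionVars false

namespace Pool.Agent.Lib.MP_2f1792_lc

open Finset MeasureTheory
open scoped NNReal ENNReal

variable (I : Inst)

theorem indep_single (e : Fin I.n) : I.Indep {e} := by
  refine ⟨fun i => ?_, ?_⟩
  · exact (Finset.card_filter_le _ _).trans (by simpa using I.cap_pos i)
  · simpa using I.k_pos

/-- accept everything from `e` and nothing else -/
noncomputable def only (e : Fin I.n) : Fin I.n → ℝ≥0∞ := fun f => if f = e then 0 else ⊤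

theorem fold_top (e : Fin I.n) (x : Fin I.n → ℝ≥0) (L : List (Fin I.n)) (hL : e ∉ L)
    (S : Finset (Fin I.n)) :
    L.foldl (fun S f => if only I e f ≤ (x f : ℝ≥0∞) ∧ I.Indep (insert f S) then insert f S
      else S) S = S := by
  induction L with
  | nil => rfl
  | cons a L ih =>
    rw [List.mem_cons, not_or] at hL
    rw [List.foldl_cons, if_neg, ih hL.2]
    rintro ⟨h, _⟩
    unfold only at h
    rw [if_neg (Ne.symm hL.1)] at h
    exact ENNReal.coe_ne_top (top_le_iff.1 h)

theorem fold_only (e : Fin I.n) (x : Fin I.n → ℝ≥0) (L : List (Fin I.n)) (hL : L.Nodup)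
    (he : e ∈ L) :
    L.foldl (fun S f => if only I e f ≤ (x f : ℝ≥0∞) ∧ I.Indep (insert f S) then insert f S
      else S) ∅ = {e} := by
  induction L with
  | nil => exact absurd he List.not_mem_nil
  | cons a L ih =>
    rw [List.nodup_cons] at hL
    rw [List.foldl_cons]
    by_cases h : a = e
    · subst h
      rw [if_pos, fold_top I a x L hL.1]
      · rfl
      · exact ⟨by unfold only; simp, by simpa using indep_single I a⟩
    · rw [if_neg]
      · exact ih hL.2 ((List.mem_cons.1 he).resolve_left (Ne.symm h))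
      · rintro ⟨h1, _⟩
        unfold only at h1
        rw [if_neg h] at h1
        exact ENNReal.coe_ne_top (top_le_iff.1 h1)

theorem exists_T_top (hI : I ∉ FM) :
    ∃ T : Fin I.n → ℝ≥0∞,
      ∫⁻ x, ((∑ e ∈ I.acc T x, x e : ℝ≥0) : ℝ≥0∞) ∂(Measure.pi I.law) = ⊤ := by
  have := I.prob
  unfold FM at hI
  simp only [Set.mem_ofPred_eq, not_forall, not_not] at hI
  obtain ⟨e, he⟩ := hI
  refine ⟨only I e, ?_⟩
  have h : ∀ x, I.acc (only I e) x = {e} := fun x =>
    fold_only I e x _ (List.nodup_finRange _) (List.mem_finRange _)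
  simp only [h, Finset.sum_singleton]
  rw [← he]
  exact (measurePreserving_eval I.law e).lintegral_comp measurable_coe_nnreal_ennreal

theorem exists_T_all {α : ℝ} (hα : 0 < α) (hα1 : α ≤ 4597 / 10000)
    (hα2 : ∀ y, 2 - 3 * α ≤ y → y ≤ 1 → 2 * α ≤ y * (1 - Real.log y)) :
    ∃ T : Fin I.n → ℝ≥0∞, I.optE /
      ∫⁻ x, ((∑ e ∈ I.acc T x, x e : ℝ≥0) : ℝ≥0∞) ∂(Measure.pi I.law) ≤
      ENNReal.ofReal (1 / α) := by
  by_cases hI : I ∈ FM
  · obtain ⟨T, hT⟩ := exists_T I hI hα hα1 hα2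
    refine ⟨T, ENNReal.div_le_of_le_mul ?_⟩
    calc I.optE = ENNReal.ofReal (1 / α) * (ENNReal.ofReal α * I.optE) := by
          rw [← mul_assoc, ← ENNReal.ofReal_mul (by positivity), one_div_mul_cancel hα.ne',
            ENNReal.ofReal_one, one_mul]
      _ ≤ _ := mul_le_mul_right hT _
  · obtain ⟨T, hT⟩ := exists_T_top I hI
    refine ⟨T, ?_⟩
    rw [hT, ENNReal.div_top]
    exact bot_le

theorem rho_le (C : Set Inst) {α : ℝ} (hα : 0 < α) (hα1 : α ≤ 4597 / 10000)
    (hα2 : ∀ y, 2 - 3 * α ≤ y → y ≤ 1 → 2 * α ≤ y * (1 - Real.log y)) :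
    rho C ≤ ENNReal.ofReal (1 / α) := by
  choose T hT using fun I => exists_T_all I hα hα1 hα2
  let A : Alg := ⟨fun I => Measure.dirac (T I), fun I => Measure.dirac.isProbabilityMeasure⟩
  refine iInf_le_of_le A (iSup₂_le fun I _ => ?_)
  have : I.algE (A.dist I) =
      ∫⁻ x, ((∑ e ∈ I.acc (T I) x, x e : ℝ≥0) : ℝ≥0∞) ∂(Measure.pi I.law) := by
    unfold Inst.algE
    exact lintegral_dirac _ _
  rw [this]
  exact hT I

end Pool.Agent.Lib.MP_2f1792_lc
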