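import Pool.Agent.Lib.MP_2f1792_lc.Defs
import Pool.Agent.Lib.MP_2f1792_lc.Rew

/-!
# The value of the accepted set as a recursion on the number of active elements of each part
-/

set_option linter.unusedSectionVars false

namespace Pool.Agent.Lib.MP_2f1792_lc

open Finset MeasureTheory
open scoped NNReal ENNReal

variable {ι : Type} [Fintype ι] [DecidableEq ι]

/-- value of the greedy rule on a list of thresholds, values and parts -/
noncomputable def val (r : ι → ℕ) (k : ℕ) : List (ℝ≥0∞ × ℝ≥0 × ι) → (ι → ℕ) → ℝ≥0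
  | [], _ => 0
  | a :: l, c => if a.1 ≤ (a.2.1 : ℝ≥0∞) then
      (if Free r k a.2.2 c then a.2.1 else 0) + val r k l (inc c a.2.2) else val r k l c

theorem val_cons (r : ι → ℕ) (k : ℕ) (a : ℝ≥0∞ × ℝ≥0 × ι) (l : List (ℝ≥0∞ × ℝ≥0 × ι))
    (c : ι → ℕ) : val r k (a :: l) c = if a.1 ≤ (a.2.1 : ℝ≥0∞) then
      (if Free r k a.2.2 c then a.2.1 else 0) + val r k l (inc c a.2.2) else val r k l c := rfl

/-- the accepted set and the numbers of active elements -/
structure Inv (I : Inst) (S : Finset (Fin I.n)) (c : Fin I.m → ℕ) : Prop where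
  low : rk I.cap univ c < I.k → ∀ i, (S.filter fun e => I.part e = i).card = min (I.cap i) (c i)
  high : I.k ≤ rk I.cap univ c → S.card = I.k

theorem card_sum (I : Inst) (S : Finset (Fin I.n)) :
    S.card = ∑ i, (S.filter fun e => I.part e = i).card :=
  Finset.card_eq_sum_card_fiberwise fun _ _ => Finset.mem_coe.2 (Finset.mem_univ _)

theorem card_insert_part (I : Inst) (S : Finset (Fin I.n)) {e : Fin I.n} (he : e ∉ S)
    (i : Fin I.m) : ((insert e S).filter fun e => I.part e = i).card =
      (S.filter fun e => I.part e = i).card + if I.part e = i then 1 else 0 := by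
  rw [Finset.filter_insert]
  split_ifs with h
  · rw [Finset.card_insert_of_notMem]
    intro h1
    exact he (Finset.mem_filter.1 h1).1
  · rfl

theorem Inv.card {I : Inst} {S : Finset (Fin I.n)} {c : Fin I.m → ℕ} (h : Inv I S c) :
    S.card = min I.k (rk I.cap univ c) := by
  rcases lt_or_ge (rk I.cap univ c) I.k with h1 | h1
  · rw [card_sum, min_eq_right h1.le]
    exact Finset.sum_congr rfl fun i _ => h.low h1 i
  · rw [h.high h1, min_eq_left h1]

theorem Inv.indep {I : Inst} {S : Finset (Fin I.n)} {c : Fin I.m → ℕ} (h : Inv I S c)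
    {e : Fin I.n} (he : e ∉ S) : I.Indep (insert e S) ↔ Free I.cap I.k (I.part e) c := by
  have h0 := h.card
  unfold Inst.Indep Free
  rw [Finset.card_insert_of_notMem he]
  constructor
  · rintro ⟨h1, h2⟩
    have h3 : rk I.cap univ c < I.k := by
      by_contra h3
      rw [min_eq_left (not_lt.1 h3)] at h0
      omega
    refine ⟨?_, h3⟩
    have h4 := h1 (I.part e)
    rw [card_insert_part I S he, if_pos rfl, h.low h3] at h4
    have := I.cap_pos (I.part e)
    omega
  · rintro ⟨h1, h2⟩
    refine ⟨fun i => ?_, ?_⟩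
    · rw [card_insert_part I S he, h.low h2]
      split_ifs with h3
      · subst h3
        omega
      · omega
    · rw [min_eq_right h2.le] at h0
      omega

theorem Inv.step_free {I : Inst} {S : Finset (Fin I.n)} {c : Fin I.m → ℕ} (h : Inv I S c)
    {e : Fin I.n} (he : e ∉ S) (hf : Free I.cap I.k (I.part e) c) :
    Inv I (insert e S) (inc c (I.part e)) := by
  have h0 := h.card
  have h2 := hf.2
  have h1 := rk_inc I.cap univ c (I.part e)
  rw [if_pos ⟨Finset.mem_univ _, hf.1⟩] at h1
  refine ⟨fun h3 i => ?_, fun h3 => ?_⟩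
  · rw [card_insert_part I S he, h.low h2]
    split_ifs with h4
    · subst h4
      rw [inc_same]
      have := hf.1
      omega
    · rw [inc_ne c (Ne.symm h4)]
      rfl
  · rw [Finset.card_insert_of_notMem he, h0]
    omega

theorem Inv.step_blocked {I : Inst} {S : Finset (Fin I.n)} {c : Fin I.m → ℕ} (h : Inv I S c)
    {e : Fin I.n} (hf : ¬ Free I.cap I.k (I.part e) c) :
    Inv I S (inc c (I.part e)) := by
  have h1 := rk_inc I.cap univ c (I.part e)
  unfold Free at hf
  refine ⟨fun h3 i => ?_, fun h3 => ?_⟩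
  · have h2 : rk I.cap univ c < I.k := by omega
    rw [h.low h2]
    by_cases h4 : I.part e = i
    · subst h4
      rw [inc_same]
      have : ¬ c (I.part e) < I.cap (I.part e) := fun h5 => hf ⟨h5, h2⟩
      omega
    · rw [inc_ne c (Ne.symm h4)]
  · refine h.high ?_
    by_cases h4 : c (I.part e) < I.cap (I.part e)
    · by_contra h5
      exact hf ⟨h4, not_le.1 h5⟩
    · rw [if_neg (fun h => h4 h.2)] at h1
      omega

theorem inv_zero (I : Inst) : Inv I ∅ 0 := by
  refine ⟨fun _ i => by simp, fun h => ?_⟩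
  rw [rk_zero] at h
  have := I.k_pos
  omega

theorem fold_val (I : Inst) (T : Fin I.n → ℝ≥0∞) (x : Fin I.n → ℝ≥0) (L : List (Fin I.n))
    (hL : L.Nodup) (S : Finset (Fin I.n)) (c : Fin I.m → ℕ) (h : Inv I S c)
    (hd : ∀ e ∈ L, e ∉ S) :
    ∑ e ∈ L.foldl (fun S e => if T e ≤ (x e : ℝ≥0∞) ∧ I.Indep (insert e S) then insert e S
      else S) S, x e =
      ∑ e ∈ S, x e + val I.cap I.k (L.map fun e => (T e, x e, I.part e)) c := by
  induction L generalizing S c with
  | nil => simp [val]
  | cons a L ih =>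
    have h1 := List.nodup_cons.1 hL
    have h2 : a ∉ S := hd a (by simp)
    rw [List.foldl_cons, List.map_cons]
    unfold val
    simp only
    by_cases h3 : T a ≤ (x a : ℝ≥0∞)
    · by_cases h4 : Free I.cap I.k (I.part a) c
      · rw [if_pos ⟨h3, (h.indep h2).2 h4⟩, if_pos h3, if_pos h4,
          ih h1.2 (insert a S) _ (h.step_free h2 h4) ?_, Finset.sum_insert h2]
        · ring
        · intro e he he2
          rcases Finset.mem_insert.1 he2 with he3 | he3
          · exact h1.1 (he3 ▸ he)
          · exact hd e (List.mem_cons_of_mem _ he) he3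
      · rw [if_neg (fun h5 => h4 ((h.indep h2).1 h5.2)), if_pos h3, if_neg h4,
          ih h1.2 S _ (h.step_blocked h4) (fun e he => hd e (List.mem_cons_of_mem _ he)), zero_add]
    · rw [if_neg (fun h5 => h3 h5.1), if_neg h3,
          ih h1.2 S _ h (fun e he => hd e (List.mem_cons_of_mem _ he))]

theorem sum_acc (I : Inst) (T : Fin I.n → ℝ≥0∞) (x : Fin I.n → ℝ≥0) :
    ∑ e ∈ I.acc T x, x e =
      val I.cap I.k (List.ofFn fun e => (T e, x e, I.part e)) 0 := by
  unfold Inst.acc
  rw [fold_val I T x _ (List.nodup_finRange _) ∅ 0 (inv_zero I) (fun _ _ => Finset.notMem_empty _),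
    Finset.sum_empty, zero_add, List.ofFn_eq_map]

end Pool.Agent.Lib.MP_2f1792_lc
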